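import Mathlib

/-!
# Closed Jacobi diagrams over the integers: definitions and local relations

A vertex oriented trivalent graph with half-edge set `Fin m` is a pair `(σ, ι)` of permutations of
`Fin m`: the vertices are the cycles of `σ` (all of length three, `σ` gives the cyclic orders) and the
edges are the cycles of the fixed point free involution `ι`.
-/

set_option autoImplicit false

open Equiv

namespace Pool.Agent.Lib.MP_a7259e_gt

/-- `(σ, ι)` is a vertex oriented trivalent graph with half-edges `Fin m`. -/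
def IsJac {m : ℕ} (σ ι : Perm (Fin m)) : Prop :=
  ∀ h, σ h ≠ h ∧ σ (σ (σ h)) = h ∧ ι h ≠ h ∧ ι (ι h) = h

/-- The relations: pairs that are not trivalent graphs, isomorphisms, AS and IHX. -/
def relations (m : ℕ) : Set ((Perm (Fin m) × Perm (Fin m)) →₀ ℤ) :=
  {x | (∃ σ ι : Perm (Fin m), ¬ IsJac σ ι ∧ x = Finsupp.single (σ, ι) 1) ∨
    (∃ σ ι τ : Perm (Fin m),
      x = Finsupp.single (σ, ι) 1 - Finsupp.single (τ * σ * τ⁻¹, τ * ι * τ⁻¹) 1) ∨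
    (∃ (σ ι σ' : Perm (Fin m)) (v : Fin m), IsJac σ ι ∧
      (∀ h, (h = v ∨ h = σ v ∨ h = σ (σ v)) → σ' h = σ⁻¹ h) ∧
      (∀ h, ¬ (h = v ∨ h = σ v ∨ h = σ (σ v)) → σ' h = σ h) ∧
      x = Finsupp.single (σ, ι) 1 + Finsupp.single (σ', ι) 1) ∨
    (∃ (σ ι τ₂ τ₃ : Perm (Fin m)) (a : Fin m), IsJac σ ι ∧
      ι a ≠ σ a ∧ ι a ≠ σ (σ a) ∧
      (∀ h, ¬ (h = a ∨ h = σ a ∨ h = σ (σ a) ∨ h = ι a ∨ h = σ (ι a) ∨
        h = σ (σ (ι a))) → τ₂ h = σ h ∧ τ₃ h = σ h) ∧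
      τ₂ a = σ (σ a) ∧ τ₂ (σ (σ a)) = σ (ι a) ∧ τ₂ (σ (ι a)) = a ∧
      τ₂ (ι a) = σ a ∧ τ₂ (σ a) = σ (σ (ι a)) ∧ τ₂ (σ (σ (ι a))) = ι a ∧
      τ₃ a = σ (ι a) ∧ τ₃ (σ (ι a)) = σ a ∧ τ₃ (σ a) = a ∧
      τ₃ (ι a) = σ (σ a) ∧ τ₃ (σ (σ a)) = σ (σ (ι a)) ∧ τ₃ (σ (σ (ι a))) = ι a ∧
      x = Finsupp.single (σ, ι) 1 + Finsupp.single (τ₂, ι) 1 + Finsupp.single (τ₃, ι) 1)}

/-- The submodule of relations. -/
noncomputable def Rel (m : ℕ) : Submodule ℤ ((Perm (Fin m) × Perm (Fin m)) →₀ ℤ) :=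
  Submodule.span ℤ (relations m)

variable {m : ℕ}

/-- The class of a diagram in the quotient by the relations. -/
noncomputable def D (σ ι : Perm (Fin m)) : ((Perm (Fin m) × Perm (Fin m)) →₀ ℤ) ⧸ Rel m :=
  Submodule.Quotient.mk (Finsupp.single (σ, ι) 1)

theorem D_eq_zero_iff (σ ι : Perm (Fin m)) : D σ ι = 0 ↔ Finsupp.single (σ, ι) (1 : ℤ) ∈ Rel m :=
  Submodule.Quotient.mk_eq_zero _

theorem D_conj (ρ σ ι : Perm (Fin m)) : D (ρ * σ * ρ⁻¹) (ρ * ι * ρ⁻¹) = D σ ι := by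
  refine ((Submodule.Quotient.eq _).2 ?_).symm
  exact Submodule.subset_span (Or.inr (Or.inl ⟨σ, ι, ρ, rfl⟩))

theorem D_as {σ ι : Perm (Fin m)} (h : IsJac σ ι) (σ' : Perm (Fin m)) (v : Fin m)
    (h1 : ∀ h, (h = v ∨ h = σ v ∨ h = σ (σ v)) → σ' h = σ⁻¹ h)
    (h2 : ∀ h, ¬ (h = v ∨ h = σ v ∨ h = σ (σ v)) → σ' h = σ h) : D σ' ι = - D σ ι := by
  have h3 : D σ ι + D σ' ι = 0 := by
    rw [D, D, ← Submodule.Quotient.mk_add, Submodule.Quotient.mk_eq_zero]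
    exact Submodule.subset_span (Or.inr (Or.inr (Or.inl ⟨σ, ι, σ', v, h, h1, h2, rfl⟩)))
  exact eq_neg_of_add_eq_zero_right h3

theorem inv_app (g : Perm (Fin m)) (x : Fin m) : g⁻¹ (g x) = x := g.symm_apply_apply x

theorem app_inv (g : Perm (Fin m)) (x : Fin m) : g (g⁻¹ x) = x := g.apply_symm_apply x

/-- Conjugation. -/
def cj (g y : Perm (Fin m)) : Perm (Fin m) := g * y * g⁻¹

theorem cj_apply (g y : Perm (Fin m)) (x : Fin m) : cj g y x = g (y (g⁻¹ x)) := rfl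

theorem cj_cj (g h y : Perm (Fin m)) : cj g (cj h y) = cj (g * h) y := by
  simp only [cj, mul_inv_rev, mul_assoc]

theorem cj_one (y : Perm (Fin m)) : cj 1 y = y := by simp [cj]

theorem cj_mul (g y z : Perm (Fin m)) : cj g (y * z) = cj g y * cj g z := by
  simp [cj, mul_assoc]

theorem cj_inv (g y : Perm (Fin m)) : cj g y⁻¹ = (cj g y)⁻¹ := by
  simp [cj, mul_assoc]

theorem cj_eq_of_commute {g y : Perm (Fin m)} (h : g * y = y * g) : cj g y = y := by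
  rw [cj, h, mul_assoc, mul_inv_cancel, mul_one]

theorem D_cj (g σ y : Perm (Fin m)) : D (cj g σ) (cj g y) = D σ y := D_conj g σ y

theorem D_cj' (g σ y : Perm (Fin m)) : D σ (cj g y) = D (cj g⁻¹ σ) y := by
  rw [← D_cj g (cj g⁻¹ σ) y, cj_cj, mul_inv_cancel, cj_one]

theorem D_cj_of_commute {g σ : Perm (Fin m)} (h : g * σ = σ * g) (y : Perm (Fin m)) :
    D σ (cj g y) = D σ y := by
  rw [D_cj', cj_eq_of_commute]
  rw [inv_mul_eq_iff_eq_mul, ← mul_assoc, h, mul_assoc, mul_inv_cancel, mul_one]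

/-- A fixed point free involution. -/
def IsInv (y : Perm (Fin m)) : Prop := ∀ h, y h ≠ h ∧ y (y h) = h

/-- A permutation all of whose cycles have length three. -/
def IsTri (σ : Perm (Fin m)) : Prop := ∀ h, σ h ≠ h ∧ σ (σ (σ h)) = h

theorem isJac_iff (σ y : Perm (Fin m)) : IsJac σ y ↔ IsTri σ ∧ IsInv y :=
  ⟨fun h => ⟨fun x => ⟨(h x).1, (h x).2.1⟩, fun x => (h x).2.2⟩,
    fun h x => ⟨(h.1 x).1, (h.1 x).2, h.2 x⟩⟩

theorem IsInv.cj {y : Perm (Fin m)} (h : IsInv y) (g : Perm (Fin m)) : IsInv (cj g y) := by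
  intro x
  rw [cj_apply, cj_apply, inv_app, (h _).2, app_inv]
  refine ⟨fun hx => ?_, rfl⟩
  apply (h (g⁻¹ x)).1
  apply g.injective
  rw [hx, app_inv]

theorem IsTri.cj {y : Perm (Fin m)} (h : IsTri y) (g : Perm (Fin m)) : IsTri (cj g y) := by
  intro x
  rw [cj_apply, cj_apply, cj_apply, inv_app, inv_app, (h _).2,
    app_inv]
  refine ⟨fun hx => ?_, rfl⟩
  apply (h (g⁻¹ x)).1
  apply g.injective
  rw [hx, app_inv]

section Tri

variable {σ : Perm (Fin m)} (hσ : IsTri σ)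
include hσ

theorem IsTri.inv_eq (x : Fin m) : σ⁻¹ x = σ (σ x) := by
  rw [Perm.inv_eq_iff_eq, (hσ x).2]

theorem IsTri.ne1 (x : Fin m) : σ x ≠ x := (hσ x).1

theorem IsTri.ne2 (x : Fin m) : σ (σ x) ≠ x := by
  intro h
  have := (hσ x).2
  rw [h] at this
  exact (hσ x).1 this

theorem IsTri.ne3 (x : Fin m) : σ (σ x) ≠ σ x := (hσ (σ x)).1

end Tri

/-- `{a, b, c}` and `{a', b', c'}` are different vertices (no condition on the cyclic orders). -/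
structure Piece (σ : Perm (Fin m)) (a b c a' b' c' : Fin m) : Prop where
  hb : (b = σ a ∧ c = σ (σ a)) ∨ (b = σ (σ a) ∧ c = σ a)
  hb' : (b' = σ a' ∧ c' = σ (σ a')) ∨ (b' = σ (σ a') ∧ c' = σ a')
  ne1 : a' ≠ a
  ne2 : a' ≠ σ a
  ne3 : a' ≠ σ (σ a)

theorem Piece.symm {σ : Perm (Fin m)} (hσ : IsTri σ) {a b c a' b' c' : Fin m}
    (h : Piece σ a b c a' b' c') : Piece σ a' b' c' a b c := by
  refine ⟨h.hb', h.hb, h.ne1.symm, fun h1 => ?_, fun h1 => ?_⟩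
  · apply h.ne3
    rw [h1, (hσ a').2]
  · apply h.ne2
    rw [h1, (hσ a').2]

theorem Piece.swap {σ : Perm (Fin m)} {a b c a' b' c' : Fin m}
    (h : Piece σ a b c a' b' c') : Piece σ a c b a' b' c' :=
  ⟨by rcases h.hb with h1 | h1 <;> simp [h1.1, h1.2], h.hb', h.ne1, h.ne2, h.ne3⟩

theorem Piece.swap' {σ : Perm (Fin m)} {a b c a' b' c' : Fin m}
    (h : Piece σ a b c a' b' c') : Piece σ a b c a' c' b' :=
  ⟨h.hb, by rcases h.hb' with h1 | h1 <;> simp [h1.1, h1.2], h.ne1, h.ne2, h.ne3⟩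

/-- the six half-edges of a piece are different -/
theorem Piece.nodup {σ : Perm (Fin m)} (hσ : IsTri σ) {a b c a' b' c' : Fin m}
    (h : Piece σ a b c a' b' c') : [a, b, c, a', b', c'].Nodup := by
  have key : [a, σ a, σ (σ a), a', σ a', σ (σ a')].Nodup := by
    have h1 := h.ne1
    have h2 := h.ne2
    have h3 := h.ne3
    have e1 := (hσ.ne1 a)
    have e2 := (hσ.ne2 a)
    have e3 := (hσ.ne3 a)
    have e4 := (hσ.ne1 a')
    have e5 := (hσ.ne2 a')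
    have e6 := (hσ.ne3 a')
    have c1 : a ≠ σ a' := fun hh => h3 (by rw [hh, (hσ a').2])
    have c2 : a ≠ σ (σ a') := fun hh => h2 (by rw [hh, (hσ a').2])
    have c3 : σ a ≠ σ a' := fun hh => h1 (σ.injective hh).symm
    have c4 : σ a ≠ σ (σ a') := fun hh => c1 (σ.injective hh)
    have c5 : σ (σ a) ≠ σ a' := fun hh => h2 (σ.injective hh).symm
    have c6 : σ (σ a) ≠ σ (σ a') := fun hh => c3 (σ.injective hh)
    simp only [List.nodup_cons, List.mem_cons, List.not_mem_nil, or_false, not_or,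
      List.nodup_nil, and_true, not_false_eq_true]
    exact ⟨⟨e1.symm, e2.symm, h1.symm, c1, c2⟩, ⟨e3.symm, h2.symm, c3, c4⟩, ⟨h3.symm, c5, c6⟩,
      ⟨e4.symm, e5.symm⟩, e6.symm⟩
  simp only [List.nodup_cons, List.mem_cons, List.not_mem_nil, or_false, not_or,
    List.nodup_nil, and_true, not_false_eq_true] at key ⊢
  obtain ⟨⟨a1, a2, a3, a4, a5⟩, ⟨b1, b2, b3, b4⟩, ⟨c1, c2, c3⟩, ⟨d1, d2⟩, e1⟩ := key
  rcases h.hb with ⟨rfl, rfl⟩ | ⟨rfl, rfl⟩ <;> rcases h.hb' with ⟨rfl, rfl⟩ | ⟨rfl, rfl⟩ <;>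
    simp [*, Ne.symm b1, Ne.symm e1]

end Pool.Agent.Lib.MP_a7259e_gt
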