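import Pool.Agent.Lib.MP_a7259e_gt.Shift

/-!
# The twisted case, and the induction step in the untwisted case
-/

set_option autoImplicit false

open Equiv Function

namespace Pool.Agent.Lib.MP_a7259e_gt

variable {m : ℕ} {σ : Perm (Fin m)}

theorem Resp.map_sigma (hσ : IsTri σ) {g : Perm (Fin m)} (hg : Resp σ g) (x : Fin m) :
    (g (σ x) = σ (g x) ∧ g (σ (σ x)) = σ (σ (g x))) ∨
      (g (σ x) = σ (σ (g x)) ∧ g (σ (σ x)) = σ (g x)) := by
  rcases rv_cases (σ := σ) g x with h | h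
  · left
    have h' := rv_sigma hσ hg x
    rw [h] at h'
    rw [rv_zero] at h h'
    exact ⟨h, by rw [h', h]⟩
  · right
    have h1 := (rv_one hσ hg).1 h
    have h2 := (hg.inv_apply hσ).2 h
    rw [hσ.inv_eq] at h1 h2
    exact ⟨h1, h2⟩

theorem Piece.map (hσ : IsTri σ) {a b c a' b' c' : Fin m} (h : Piece σ a b c a' b' c')
    {g : Perm (Fin m)} (hg : Resp σ g) : Piece σ (g a) (g b) (g c) (g a') (g b') (g c') := by
  have e1 : (g b = σ (g a) ∧ g c = σ (σ (g a))) ∨ (g b = σ (σ (g a)) ∧ g c = σ (g a)) := by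
    rcases h.hb with ⟨rfl, rfl⟩ | ⟨rfl, rfl⟩
    · exact hg.map_sigma hσ a
    · rcases hg.map_sigma hσ a with h1 | h1
      · exact Or.inr ⟨h1.2, h1.1⟩
      · exact Or.inl ⟨h1.2, h1.1⟩
  have e2 : (g b' = σ (g a') ∧ g c' = σ (σ (g a'))) ∨ (g b' = σ (σ (g a')) ∧ g c' = σ (g a')) := by
    rcases h.hb' with ⟨rfl, rfl⟩ | ⟨rfl, rfl⟩
    · exact hg.map_sigma hσ a'
    · rcases hg.map_sigma hσ a' with h1 | h1
      · exact Or.inr ⟨h1.2, h1.1⟩
      · exact Or.inl ⟨h1.2, h1.1⟩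
  refine ⟨e1, e2, fun e => h.ne1 (g.injective e), fun e => ?_, fun e => ?_⟩
  · rcases hg.map_sigma hσ a with ⟨h1, h2⟩ | ⟨h1, h2⟩
    · exact h.ne2 (g.injective (e.trans h1.symm))
    · exact h.ne3 (g.injective (e.trans h2.symm))
  · rcases hg.map_sigma hσ a with ⟨h1, h2⟩ | ⟨h1, h2⟩
    · exact h.ne3 (g.injective (e.trans h2.symm))
    · exact h.ne2 (g.injective (e.trans h1.symm))

theorem cj_eq_iff {g y : Perm (Fin m)} (h : cj g y = y) (x : Fin m) : y (g x) = g (y x) := by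
  conv_lhs => rw [← h]
  rw [cj_apply, inv_app]

theorem cj_pow_eq {g y : Perm (Fin m)} (h : cj g y = y) (k : ℕ) : cj (g ^ k) y = y := by
  induction k with
  | zero => rw [pow_zero, cj_one]
  | succ k ih => rw [pow_succ', ← cj_cj, ih, h]

theorem cyc_fix {a b c a' b' c' : Fin m} (x : Fin m) (hx : x ∉ [a, b, c, a', b', c']) :
    cyc b c b' x = x := by
  simp only [List.mem_cons, List.not_mem_nil, or_false, not_or] at hx
  exact cyc_apply_ne hx.2.1 hx.2.2.1 hx.2.2.2.2.1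

/-- Expansion at the translates of an edge. -/
theorem Piece.expansion (hσ : IsTri σ) {a b c a' b' c' : Fin m} (h : Piece σ a b c a' b' c')
    {ι τ : Perm (Fin m)} (hι : IsInv ι) (hc : cj τ ι = ι) (hτ : Resp σ τ) (hya : ι a = a') (n : ℕ)
    (hoff : Off τ [a, b, c, a', b', c'] n) :
    D σ ι = (-1 : ℤ) ^ n • ∑ β : Fin n → Bool, D σ (cj (prd (kap τ (cyc b c b')) β)⁻¹ ι) := by
  refine expand n (kap τ (cyc b c b')) (fun i => (τ ^ i) a) (fun i => (τ ^ i) a') ?_ ?_ ι hι ?_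
  · intro i _ y hy hyi
    have := (h.map hσ (hτ.pow hσ i)).ihx hσ hy hyi
    rw [← cyc_conj] at this
    exact this
  · intro i hi j hj hij
    have ha : a ∈ [a, b, c, a', b', c'] := by simp
    have ha' : a' ∈ [a, b, c, a', b', c'] := by simp
    exact ⟨kap_fix' hoff cyc_fix hi hj hij ha, kap_fix' hoff cyc_fix hi hj hij ha'⟩
  · intro i _
    show ι ((τ ^ i) a) = (τ ^ i) a'
    rw [cj_eq_iff (cj_pow_eq hc i), hya]

/-- The twisted case. -/
theorem Piece.zero_twisted (hσ : IsTri σ) {a b c a' b' c' : Fin m} (h : Piece σ a b c a' b' c')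
    {ι τ : Perm (Fin m)} (hι : IsInv ι) (hc : cj τ ι = ι) (hτ : Resp σ τ) (hp : par σ τ = 1)
    (hya : ι a = a') (n : ℕ) (hoff : Off τ [a, b, c, a', b', c'] (n + 1))
    (hw : ∀ y : Perm (Fin m), IsInv y → y a = a' → ∀ z,
      D σ (cj (kap τ (cyc b c b') (n + 1) ^ sg z)⁻¹ y) = D σ (cj (cyc b c b' ^ sg (!z))⁻¹ y)) :
    D σ ι = 0 := by
  rw [h.expansion hσ hι hc hτ hya (n + 1) hoff, sum_twisted n, smul_zero]
  intro β
  exact tsym hσ hoff cyc_fix hι hc hτ hp (by simp) (by simp) hya (fun z => !z) hw β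

/-- The untwisted case, reduced to the constant terms. -/
theorem Piece.zero_untwisted (hσ : IsTri σ) {a b c a' b' c' : Fin m} (h : Piece σ a b c a' b' c')
    {ι τ : Perm (Fin m)} (hι : IsInv ι) (hc : cj τ ι = ι) (hτ : Resp σ τ) (hp : par σ τ = 1)
    (hya : ι a = a') (n s : ℕ) (hn : n + 1 = 2 ^ s) (hoff : Off τ [a, b, c, a', b', c'] (n + 1))
    (hw : ∀ y : Perm (Fin m), IsInv y → y a = a' → ∀ z,
      D σ (cj (kap τ (cyc b c b') (n + 1) ^ sg z)⁻¹ y) = D σ (cj (cyc b c b' ^ sg z)⁻¹ y))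
    (h1 : D σ (cj (prd (kap τ (cyc b c b')) (fun _ : Fin (n + 1) => true))⁻¹ ι) = 0)
    (h0 : D σ (cj (prd (kap τ (cyc b c b')) (fun _ : Fin (n + 1) => false))⁻¹ ι) = 0) :
    D σ ι = 0 := by
  rw [h.expansion hσ hι hc hτ hya (n + 1) hoff, sum_untwisted n s hn _ _ h1 h0, smul_zero]
  intro β
  exact tsym hσ hoff cyc_fix hι hc hτ hp (by simp) (by simp) hya (fun z => z) hw β

/-- a transposition at a vertex respects the vertices -/
theorem resp_swap0 (hσ : IsTri σ) (a : Fin m) : Resp σ (Equiv.swap (σ a) (σ (σ a))) := by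
  intro x
  have n1 := hσ.ne1 a
  have n2 := hσ.ne2 a
  by_cases h1 : x = a
  · right
    rw [h1, swap_apply_left, swap_apply_of_ne_of_ne n1.symm n2.symm, hσ.inv_eq]
  by_cases h2 : x = σ a
  · right
    rw [h2, swap_apply_right, swap_apply_left, inv_app]
  by_cases h3 : x = σ (σ a)
  · right
    rw [h3, (hσ a).2, swap_apply_right, swap_apply_of_ne_of_ne n1.symm n2.symm, inv_app]
  left
  rw [swap_apply_of_ne_of_ne h2 h3, swap_apply_of_ne_of_ne (fun e => h1 (σ.injective e))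
    (fun e => h2 (σ.injective e))]

theorem Piece.resp_swap (hσ : IsTri σ) {a b c a' b' c' : Fin m} (h : Piece σ a b c a' b' c') :
    Resp σ (Equiv.swap b c) := by
  rcases h.hb with ⟨rfl, rfl⟩ | ⟨rfl, rfl⟩
  · exact resp_swap0 hσ a
  · rw [Equiv.swap_comm]; exact resp_swap0 hσ a

theorem resp_of_comm {g : Perm (Fin m)} (h : g * σ = σ * g) : Resp σ g := fun x => Or.inl (by
  rw [← Perm.mul_apply, h, Perm.mul_apply])

theorem Piece.resp_tht (hσ : IsTri σ) {a b c a' b' c' : Fin m} (h : Piece σ a b c a' b' c') :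
    Resp σ (tht a b c a' b' c') := by
  have h0 : Piece σ a (σ a) (σ (σ a)) a' (σ a') (σ (σ a')) :=
    ⟨Or.inl ⟨rfl, rfl⟩, Or.inl ⟨rfl, rfl⟩, h.ne1, h.ne2, h.ne3⟩
  have e0 : Resp σ (tht a (σ a) (σ (σ a)) a' (σ a') (σ (σ a'))) := resp_of_comm (tht_comm hσ h0)
  have s1 : tht a (σ a) (σ (σ a)) a' (σ a') (σ (σ a')) =
      tht a (σ (σ a)) (σ a) a' (σ (σ a')) (σ a') := by
    have hnd := h0.nodup hσ
    simp only [List.nodup_cons, List.mem_cons, List.not_mem_nil, or_false, not_or,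
      List.nodup_nil, and_true, not_false_eq_true] at hnd
    obtain ⟨⟨a1, a2, a3, a4, a5⟩, ⟨b1, b2, b3, b4⟩, ⟨c1, c2, c3⟩, ⟨d1, d2⟩, e1⟩ := hnd
    rw [tht, tht, mul_assoc, mul_assoc, swap_comm_of_ne b1 b4 (Ne.symm c2) e1]
  have e1 : Resp σ (Equiv.swap b c) := h.resp_swap hσ
  have e2 : Resp σ (Equiv.swap b' c') := (h.symm hσ).resp_swap hσ
  rcases h.hb with ⟨hb, hc⟩ | ⟨hb, hc⟩ <;> rcases h.hb' with ⟨hb', hc'⟩ | ⟨hb', hc'⟩
  · subst hb hc hb' hc'
    exact e0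
  · rw [tht_swap _ _ _ _ _ _ (h.nodup hσ)]
    refine Resp.mul hσ ?_ (e1.mul hσ e2)
    subst hb hc hb' hc'
    exact e0
  · rw [tht_swap _ _ _ _ _ _ (h.nodup hσ)]
    refine Resp.mul hσ ?_ (e1.mul hσ e2)
    subst hb hc hb' hc'
    rw [← s1]
    exact e0
  · subst hb hc hb' hc'
    rw [← s1]
    exact e0

theorem tht_tht {a b c a' b' c' : Fin m} (h : [a, b, c, a', b', c'].Nodup) (x : Fin m) :
    tht a b c a' b' c' (tht a b c a' b' c' x) = x := by
  by_cases hx : x ∈ [a, b, c, a', b', c']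
  · simp only [List.mem_cons, List.not_mem_nil, or_false] at hx
    rcases hx with rfl | rfl | rfl | rfl | rfl | rfl
    · rw [tht_a h, tht_a' h]
    · rw [tht_b h, tht_b' h]
    · rw [tht_c h, tht_c' h]
    · rw [tht_a' h, tht_a h]
    · rw [tht_b' h, tht_b h]
    · rw [tht_c' h, tht_c h]
  · rw [tht_ne hx, tht_ne hx]

theorem tht_mul_self {a b c a' b' c' : Fin m} (h : [a, b, c, a', b', c'].Nodup) :
    tht a b c a' b' c' * tht a b c a' b' c' = 1 := Equiv.ext fun x => tht_tht h x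

/-- the half-edges of a piece form two vertices -/
theorem Piece.mem_sigma (hσ : IsTri σ) {a b c a' b' c' : Fin m} (h : Piece σ a b c a' b' c')
    (x : Fin m) : σ x ∈ [a, b, c, a', b', c'] ↔ x ∈ [a, b, c, a', b', c'] := by
  have key : ∀ p q r x : Fin m, ((q = σ p ∧ r = σ (σ p)) ∨ (q = σ (σ p) ∧ r = σ p)) →
      ((σ x = p ∨ σ x = q ∨ σ x = r) ↔ (x = p ∨ x = q ∨ x = r)) := by
    intro p q r x hp
    have e1 : σ x = p ↔ x = σ (σ p) := by
      constructor
      · rintro rfl; rw [(hσ x).2]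
      · rintro rfl; rw [(hσ p).2]
    have e2 : σ x = σ p ↔ x = p := σ.injective.eq_iff
    have e3 : σ x = σ (σ p) ↔ x = σ p := σ.injective.eq_iff
    rcases hp with ⟨rfl, rfl⟩ | ⟨rfl, rfl⟩
    · rw [e1, e2, e3]; tauto
    · rw [e1, e2, e3]; tauto
  have k1 := key a b c x h.hb
  have k2 := key a' b' c' x h.hb'
  have k3 := or_congr k1 k2
  simpa only [List.mem_cons, List.not_mem_nil, or_false, or_assoc] using k3

theorem tht_ne_self {a b c a' b' c' : Fin m} (h : [a, b, c, a', b', c'].Nodup) {x : Fin m}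
    (hx : x ∈ [a, b, c, a', b', c']) : tht a b c a' b' c' x ≠ x := by
  have h' := h
  simp only [List.nodup_cons, List.mem_cons, List.not_mem_nil, or_false, not_or,
      List.nodup_nil, and_true, not_false_eq_true] at h'
  obtain ⟨⟨a1, a2, a3, a4, a5⟩, ⟨b1, b2, b3, b4⟩, ⟨c1, c2, c3⟩, ⟨d1, d2⟩, e1⟩ := h'
  simp only [List.mem_cons, List.not_mem_nil, or_false] at hx
  rcases hx with rfl | rfl | rfl | rfl | rfl | rfl
  · rw [tht_a h]; exact Ne.symm a3
  · rw [tht_b h]; exact Ne.symm b3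
  · rw [tht_c h]; exact Ne.symm c3
  · rw [tht_a' h]; exact a3
  · rw [tht_b' h]; exact b3
  · rw [tht_c' h]; exact c3

theorem Piece.par_tht (hσ : IsTri σ) {a b c a' b' c' : Fin m} (h : Piece σ a b c a' b' c') :
    par σ (tht a b c a' b' c') = 0 := by
  have hr := h.resp_tht hσ
  have hnd := h.nodup hσ
  refine Finset.sum_involution (fun x _ => tht a b c a' b' c' x) ?_ ?_ (fun _ _ => Finset.mem_univ _)
    (fun x _ => tht_tht hnd x)
  · intro x _
    have := rv_mul hσ hr hr x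
    rw [tht_mul_self hnd, rv_id] at this
    rw [add_comm]
    exact this.symm
  · intro x _ hx
    by_cases hxP : x ∈ [a, b, c, a', b', c']
    · exact tht_ne_self hnd hxP
    · exfalso
      apply hx
      rw [rv_zero, tht_ne hxP, tht_ne]
      rwa [h.mem_sigma hσ]

end Pool.Agent.Lib.MP_a7259e_gt
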