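import Pool.Agent.Lib.MP_a7259e_gt.Shrink

/-!
# Disjointness of the translates of an edge
-/

set_option autoImplicit false

open Equiv Function

namespace Pool.Agent.Lib.MP_a7259e_gt

variable {m : ℕ} {σ : Perm (Fin m)}

/-- `y` belongs to the vertex of `x` -/
def InV (σ : Perm (Fin m)) (x y : Fin m) : Prop := y = x ∨ y = σ x ∨ y = σ⁻¹ x

theorem InV.symm (hσ : IsTri σ) {x y : Fin m} (h : InV σ x y) : InV σ y x := by
  rcases h with rfl | rfl | rfl
  · exact Or.inl rfl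
  · right; right; rw [inv_app]
  · right; left; rw [app_inv]

theorem InV.trans (hσ : IsTri σ) {x y z : Fin m} (h : InV σ x y) (h' : InV σ y z) :
    InV σ x z := by
  rcases h with rfl | rfl | rfl
  · exact h'
  · rcases h' with rfl | rfl | rfl
    · exact Or.inr (Or.inl rfl)
    · right; right; rw [hσ.inv_eq]
    · left; rw [inv_app]
  · rcases h' with rfl | rfl | rfl
    · exact Or.inr (Or.inr rfl)
    · left; rw [app_inv]
    · right; left; rw [hσ.inv_inv_eq]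

theorem InV.map {g : Perm (Fin m)} (hσ : IsTri σ) (hg : Resp σ g) {x y : Fin m} (h : InV σ x y) :
    InV σ (g x) (g y) := by
  rcases h with rfl | rfl | rfl
  · exact Or.inl rfl
  · rcases hg x with h1 | h1
    · exact Or.inr (Or.inl h1)
    · exact Or.inr (Or.inr h1)
  · rcases rv_cases (σ := σ) g x with h1 | h1
    · exact Or.inr (Or.inr ((hg.inv_apply hσ).1 h1))
    · exact Or.inr (Or.inl ((hg.inv_apply hσ).2 h1))

/-- the two half-edges next to `x` are exchanged by `g` if `g` fixes `x` and does not fix `σ x` -/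
theorem fix_cases {g : Perm (Fin m)} (hσ : IsTri σ) (hg : Resp σ g) {x : Fin m} (hx : g x = x) :
    (g (σ x) = σ x ∧ g (σ⁻¹ x) = σ⁻¹ x) ∨ (g (σ x) = σ⁻¹ x ∧ g (σ⁻¹ x) = σ x) := by
  rcases rv_cases (σ := σ) g x with h1 | h1
  · left
    have h2 := (hg.inv_apply hσ).1 h1
    rw [rv_zero] at h1
    rw [hx] at h1 h2
    exact ⟨h1, h2⟩
  · right
    have h2 := (hg.inv_apply hσ).2 h1
    rw [rv_one hσ hg] at h1
    rw [hx] at h1 h2
    exact ⟨h1, h2⟩

/-- `x` is the only fixed point of `g` at its vertex -/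
def UF (σ g : Perm (Fin m)) (x : Fin m) : Prop := g x = x ∧ ∀ y, InV σ x y → g y = y → y = x

theorem UF.mk' {g : Perm (Fin m)} (hσ : IsTri σ) (hg : Resp σ g) {x : Fin m} (hx : g x = x)
    (h : g (σ x) = σ⁻¹ x) : UF σ g x := by
  refine ⟨hx, ?_⟩
  have h0 := hσ.inv_ne x
  have h2 : g (σ⁻¹ x) = σ x := by
    rcases fix_cases hσ hg hx with h1 | h1
    · rw [h1.1] at h; exact absurd h.symm h0
    · exact h1.2
  rintro y (rfl | rfl | rfl) hy
  · rfl
  · rw [h] at hy; exact absurd hy h0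
  · rw [h2] at hy; exact absurd hy.symm h0

/-- images of points with a unique fixed half-edge -/
theorem UF.eq_of_map {g k : Perm (Fin m)} (hσ : IsTri σ) (hk : Resp σ k) (hgk : Commute g k)
    {x z p : Fin m} (hx : g x = x) (hz : UF σ g z) (hp : InV σ x p) (hkp : InV σ z (k p)) :
    k x = z := by
  refine hz.2 _ ?_ ?_
  · exact hkp.trans hσ (InV.map hσ hk (hp.symm hσ))
  · rw [← Perm.mul_apply, hgk.eq, Perm.mul_apply, hx]

theorem pow_comm_pow (τ : Perm (Fin m)) (i j : ℕ) : Commute (τ ^ i) (τ ^ j) :=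
  Commute.pow_pow (Commute.refl τ) i j

theorem not_pow_eq_of_lt {τ : Perm (Fin m)} {a : Fin m} {r d : ℕ} (hr : minimalPeriod τ a = r)
    (h0 : 0 < d) (h1 : d < r) : (τ ^ d) a ≠ a := by
  intro h
  have h2 : IsPeriodicPt τ d a := by
    rw [IsPeriodicPt, IsFixedPt, ← Perm.coe_pow]; exact h
  have h3 := h2.minimalPeriod_dvd
  rw [hr] at h3
  exact absurd (Nat.le_of_dvd h0 h3) (by omega)

/-- Disjointness when both ends are reversed by `τ ^ r`. -/
theorem off_of_uf (hσ : IsTri σ) {τ : Perm (Fin m)} (hτ : Resp σ τ) {a b c a' b' c' : Fin m}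
    (h : Piece σ a b c a' b' c') {r n : ℕ} (ha : UF σ (τ ^ r) a) (ha' : UF σ (τ ^ r) a')
    (h1 : ∀ d, 0 < d → d < n → (τ ^ d) a ≠ a) (h2 : ∀ d, 0 < d → d < n → (τ ^ d) a ≠ a')
    (h3 : ∀ d, 0 < d → d < n → (τ ^ d) a' ≠ a) (h4 : ∀ d, 0 < d → d < n → (τ ^ d) a' ≠ a') :
    Off τ [a, b, c, a', b', c'] n := by
  intro d d0 d1 p hp hp'
  have hmem : ∀ x, x ∈ [a, b, c, a', b', c'] → InV σ a x ∨ InV σ a' x := by
    intro x hx
    simp only [List.mem_cons, List.not_mem_nil, or_false] at hx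
    rcases hx with rfl | rfl | rfl | rfl | rfl | rfl
    · exact Or.inl (Or.inl rfl)
    · left
      rcases h.hb with ⟨h1, -⟩ | ⟨h1, -⟩
      · exact Or.inr (Or.inl h1)
      · right; right; rw [hσ.inv_eq]; exact h1
    · left
      rcases h.hb with ⟨-, h1⟩ | ⟨-, h1⟩
      · right; right; rw [hσ.inv_eq]; exact h1
      · exact Or.inr (Or.inl h1)
    · exact Or.inr (Or.inl rfl)
    · right
      rcases h.hb' with ⟨h1, -⟩ | ⟨h1, -⟩
      · exact Or.inr (Or.inl h1)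
      · right; right; rw [hσ.inv_eq]; exact h1
    · right
      rcases h.hb' with ⟨-, h1⟩ | ⟨-, h1⟩
      · right; right; rw [hσ.inv_eq]; exact h1
      · exact Or.inr (Or.inl h1)
  have hk := hτ.pow hσ d
  have hc := pow_comm_pow τ r d
  rcases hmem p hp with k1 | k1 <;> rcases hmem _ hp' with k2 | k2
  · exact h1 d d0 d1 (UF.eq_of_map hσ hk hc ha.1 ha k1 k2)
  · exact h2 d d0 d1 (UF.eq_of_map hσ hk hc ha.1 ha' k1 k2)
  · exact h3 d d0 d1 (UF.eq_of_map hσ hk hc ha'.1 ha k1 k2)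
  · exact h4 d d0 d1 (UF.eq_of_map hσ hk hc ha'.1 ha' k1 k2)

theorem rot_or_rev (hσ : IsTri σ) {g : Perm (Fin m)} (hg : Resp σ g) {x : Fin m}
    (h : g x = σ x ∨ g x = σ⁻¹ x) :
    (g ^ 3) x = x ∨ ∃ y, g y = y ∧ g (σ y) = σ⁻¹ y := by
  have hp3 : (g ^ 3) x = g (g (g x)) := by
    rw [pow_succ, pow_two, Perm.mul_apply, Perm.mul_apply]
  rcases rv_cases (σ := σ) g x with hr | hr
  · left
    have k1 := (rv_zero).1 hr
    have k2 := (hg.inv_apply hσ).1 hr
    rw [hp3]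
    rcases h with h | h
    · rw [h, k1, h, ← hσ.inv_eq, k2, h, inv_app]
    · rw [h, k2, h, hσ.inv_inv_eq, k1, h, app_inv]
  · right
    have k1 := (rv_one hσ hg).1 hr
    have k2 := (hg.inv_apply hσ).2 hr
    rcases h with h | h
    · refine ⟨σ⁻¹ x, ?_, ?_⟩
      · rw [k2, h, hσ.inv_eq]
      · rw [app_inv, h, hσ.inv_inv_eq]
    · refine ⟨σ x, ?_, ?_⟩
      · rw [k1, h, hσ.inv_inv_eq]
      · rw [← hσ.inv_eq, k2, h, app_inv, inv_app]

/-- Disjointness when the second end is fixed pointwise by `τ ^ r`. -/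
theorem off_of_fix (hσ : IsTri σ) {τ : Perm (Fin m)} (hτ : Resp σ τ) {a b c a' b' c' : Fin m}
    (h : Piece σ a b c a' b' c') {r s : ℕ} (hrs : r = 2 ^ s) (ha : UF σ (τ ^ r) a)
    (ha' : ∀ x, InV σ a' x → (τ ^ r) x = x)
    (h1 : ∀ d, 0 < d → d < r → (τ ^ d) a ≠ a) (h4 : ∀ d, 0 < d → d < r → (τ ^ d) a' ≠ a')
    (h5 : ∀ d, (τ ^ d) a' = a' → r ∣ d)
    (hmin : ∀ y ∈ Rev σ τ, r ≤ minimalPeriod τ y) :
    Off τ [a, b, c, a', b', c'] r := by
  intro d d0 d1 p hp hp'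
  have hmem : ∀ x, x ∈ [a, b, c, a', b', c'] → InV σ a x ∨ InV σ a' x := by
    intro x hx
    simp only [List.mem_cons, List.not_mem_nil, or_false] at hx
    rcases hx with rfl | rfl | rfl | rfl | rfl | rfl
    · exact Or.inl (Or.inl rfl)
    · left
      rcases h.hb with ⟨h1, -⟩ | ⟨h1, -⟩
      · exact Or.inr (Or.inl h1)
      · right; right; rw [hσ.inv_eq]; exact h1
    · left
      rcases h.hb with ⟨-, h1⟩ | ⟨-, h1⟩
      · right; right; rw [hσ.inv_eq]; exact h1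
      · exact Or.inr (Or.inl h1)
    · exact Or.inr (Or.inl rfl)
    · right
      rcases h.hb' with ⟨h1, -⟩ | ⟨h1, -⟩
      · exact Or.inr (Or.inl h1)
      · right; right; rw [hσ.inv_eq]; exact h1
    · right
      rcases h.hb' with ⟨-, h1⟩ | ⟨-, h1⟩
      · right; right; rw [hσ.inv_eq]; exact h1
      · exact Or.inr (Or.inl h1)
  have hk := hτ.pow hσ d
  have hc := pow_comm_pow τ r d
  have hfix : ∀ x, (τ ^ r) x = x → (τ ^ r) ((τ ^ d) x) = (τ ^ d) x := by
    intro x hx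
    rw [← Perm.mul_apply, hc.eq, Perm.mul_apply, hx]
  have hfix' : ∀ x, (τ ^ r) ((τ ^ d) x) = (τ ^ d) x → (τ ^ r) x = x := by
    intro x hx
    rw [← Perm.mul_apply, hc.eq, Perm.mul_apply] at hx
    exact (τ ^ d).injective hx
  rcases hmem p hp with k1 | k1 <;> rcases hmem _ hp' with k2 | k2
  · exact h1 d d0 d1 (UF.eq_of_map hσ hk hc ha.1 ha k1 k2)
  · -- vertex of `a` to the vertex of `a'`
    have e1 : InV σ a' ((τ ^ d) (σ a)) :=
      k2.trans hσ (InV.map hσ hk ((k1.symm hσ).trans hσ (Or.inr (Or.inl rfl))))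
    have e2 := hfix' _ (ha' _ e1)
    exact hσ.ne1 a (ha.2 _ (Or.inr (Or.inl rfl)) e2)
  · have e1 : InV σ a ((τ ^ d) a') := k2.trans hσ (InV.map hσ hk (k1.symm hσ))
    have e2 : InV σ a ((τ ^ d) (σ a')) :=
      k2.trans hσ (InV.map hσ hk ((k1.symm hσ).trans hσ (Or.inr (Or.inl rfl))))
    have e3 := ha.2 _ e1 (hfix _ (ha' _ (Or.inl rfl)))
    have e4 := ha.2 _ e2 (hfix _ (ha' _ (Or.inr (Or.inl rfl))))
    exact hσ.ne1 a' ((τ ^ d).injective (e4.trans e3.symm))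
  · have e1 : InV σ a' ((τ ^ d) a') := k2.trans hσ (InV.map hσ hk (k1.symm hσ))
    have e2 : (τ ^ d) a' = σ a' ∨ (τ ^ d) a' = σ⁻¹ a' := e1.resolve_left (h4 d d0 d1)
    rcases rot_or_rev hσ hk e2 with e3 | ⟨y, e3, e4⟩
    · rw [← pow_mul] at e3
      have e4 := h5 _ e3
      rw [hrs] at e4
      have e5 : Nat.Coprime (2 ^ s) 3 := Nat.Coprime.pow_left _ (by norm_num)
      have e6 : 2 ^ s ∣ d := e5.dvd_of_dvd_mul_right e4
      have e7 := Nat.le_of_dvd d0 e6
      omega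
    · have e5 : y ∈ Rev σ τ := ⟨d, e3, e4⟩
      have e6 := hmin y e5
      have e7 : IsPeriodicPt τ d y := by
        rw [IsPeriodicPt, IsFixedPt, ← Perm.coe_pow]; exact e3
      have e8 := Nat.le_of_dvd d0 e7.minimalPeriod_dvd
      omega

end Pool.Agent.Lib.MP_a7259e_gt
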