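import Pool.Agent.Lib.MP_a7259e_gt.Sign

/-!
# Simultaneous IHX expansion at several edges, and its symmetry
-/

set_option autoImplicit false

open Equiv Function

namespace Pool.Agent.Lib.MP_a7259e_gt

variable {m : ℕ} {σ : Perm (Fin m)}

/-- sign of a Boolean -/
def sg (b : Bool) : ℤ := cond b 1 (-1)

/-- the product of the three-cycles `κ i` or their inverses, `i < n` -/
def prd (κ : ℕ → Perm (Fin m)) {n : ℕ} (β : Fin n → Bool) : Perm (Fin m) :=
  (List.ofFn fun i : Fin n => κ i ^ sg (β i)).prod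

theorem prd_cons (κ : ℕ → Perm (Fin m)) {n : ℕ} (b : Bool) (β : Fin n → Bool) :
    prd κ (Fin.cons b β : Fin (n + 1) → Bool) = κ 0 ^ sg b * prd (fun i => κ (i + 1)) β := by
  simp only [prd, List.ofFn_succ, List.prod_cons, Fin.cons_zero, Fin.cons_succ, Fin.val_succ,
    Fin.val_zero]

theorem prd_snoc (κ : ℕ → Perm (Fin m)) {n : ℕ} (β : Fin (n + 1) → Bool) :
    prd κ β = prd κ (Fin.init β) * κ n ^ sg (β (Fin.last n)) := by
  simp only [prd, List.ofFn_succ', List.prod_concat, Fin.init, Fin.val_castSucc, Fin.val_last]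

theorem cj_zpow (g y : Perm (Fin m)) (z : ℤ) : cj g (y ^ z) = (cj g y) ^ z := by
  have h : ∀ x, cj g x = MulAut.conj g x := fun x => rfl
  rw [h, h, map_zpow]

theorem cj_prd (g : Perm (Fin m)) (κ : ℕ → Perm (Fin m)) {n : ℕ} (β : Fin n → Bool) :
    cj g (prd κ β) = prd (fun i => cj g (κ i)) β := by
  have h : ∀ x, cj g x = MulAut.conj g x := fun x => rfl
  rw [prd, prd, h, map_list_prod, List.map_ofFn]
  congr 2
  funext i
  rw [Function.comp_apply, ← h, cj_zpow]

/-- a product of permutations fixing a point fixes it -/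
theorem prd_fix (κ : ℕ → Perm (Fin m)) {n : ℕ} (β : Fin n → Bool) {x : Fin m}
    (h : ∀ i < n, κ i x = x) : prd κ β x = x ∧ (prd κ β)⁻¹ x = x := by
  have key : ∀ l : List (Perm (Fin m)), (∀ g ∈ l, g x = x) → l.prod x = x := by
    intro l
    induction l with
    | nil => intro _; rfl
    | cons g l ih =>
      intro hl
      rw [List.prod_cons, Perm.mul_apply, ih (fun g' hg' => hl g' (List.mem_cons_of_mem _ hg')),
        hl g List.mem_cons_self]
  have h1 : prd κ β x = x := by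
    refine key _ ?_
    intro g hg
    rw [List.mem_ofFn] at hg
    obtain ⟨i, rfl⟩ := hg
    exact Perm.zpow_apply_eq_self_of_apply_eq_self (h i i.isLt) _
  exact ⟨h1, by rw [Perm.inv_eq_iff_eq, h1]⟩

/-- commutation -/
theorem prd_comm (κ : ℕ → Perm (Fin m)) {n : ℕ} (β : Fin n → Bool) (g : Perm (Fin m))
    (h : ∀ i < n, Commute g (κ i)) : Commute g (prd κ β) := by
  refine Commute.list_prod_right _ _ ?_
  intro x hx
  rw [List.mem_ofFn] at hx
  obtain ⟨i, rfl⟩ := hx
  exact (h i i.isLt).zpow_right _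

theorem sum_bool_cons {A : Type*} [AddCommMonoid A] {n : ℕ} (f : (Fin (n + 1) → Bool) → A) :
    ∑ β, f β = ∑ b : Bool, ∑ β : Fin n → Bool, f (Fin.cons b β) := by
  rw [← Fintype.sum_prod_type']
  exact (Fintype.sum_equiv (Fin.consEquiv (fun _ : Fin (n + 1) => Bool)) _ _ fun _ => rfl).symm

/-- Simultaneous IHX expansion. -/
theorem expand : ∀ (n : ℕ) (κ : ℕ → Perm (Fin m)) (α α' : ℕ → Fin m),
    (∀ i < n, ∀ y : Perm (Fin m), IsInv y → y (α i) = α' i →
      D σ y + D σ (cj (κ i)⁻¹ y) + D σ (cj (κ i) y) = 0) →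
    (∀ i < n, ∀ j < n, i ≠ j → κ i (α j) = α j ∧ κ i (α' j) = α' j) →
    ∀ y : Perm (Fin m), IsInv y → (∀ i < n, y (α i) = α' i) →
      D σ y = (-1 : ℤ) ^ n • ∑ β : Fin n → Bool, D σ (cj (prd κ β)⁻¹ y) := by
  intro n
  induction n with
  | zero =>
    intro κ α α' _ _ y _ _
    simp [prd, cj_one]
  | succ n ih =>
    intro κ α α' h1 h2 y hy hya
    rw [sum_bool_cons]
    have e1 : ∀ b : Bool, ∑ β : Fin n → Bool,
        D σ (cj (prd κ (Fin.cons b β : Fin (n + 1) → Bool))⁻¹ y) =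
          (-1 : ℤ) ^ n • D σ (cj ((κ 0) ^ sg b)⁻¹ y) := by
      intro b
      have hy' : IsInv (cj ((κ 0) ^ sg b)⁻¹ y) := hy.cj _
      have hfix : ∀ x, κ 0 x = x → ((κ 0) ^ sg b) x = x ∧ ((κ 0) ^ sg b)⁻¹ x = x := by
        intro x hx
        have k1 : ((κ 0) ^ sg b) x = x := Perm.zpow_apply_eq_self_of_apply_eq_self hx _
        exact ⟨k1, by rw [Perm.inv_eq_iff_eq, k1]⟩
      have k := ih (fun i => κ (i + 1)) (fun i => α (i + 1)) (fun i => α' (i + 1))
        (fun i hi => h1 (i + 1) (by omega))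
        (fun i hi j hj hij => h2 (i + 1) (by omega) (j + 1) (by omega) (by omega))
        _ hy' (fun i hi => by
          obtain ⟨f1, f2⟩ := h2 0 (by omega) (i + 1) (by omega) (by omega)
          rw [cj_apply, inv_inv, (hfix _ f1).1, hya (i + 1) (by omega), (hfix _ f2).2])
      rw [k, smul_smul, ← mul_pow, neg_mul_neg, one_mul, one_pow, one_smul]
      refine Finset.sum_congr rfl fun β _ => ?_
      rw [prd_cons, mul_inv_rev, cj_cj]
    rw [Fintype.sum_bool, e1, e1]
    have h3 := h1 0 (by omega) y hy (hya 0 (by omega))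
    have e2 : (κ 0 ^ sg true)⁻¹ = (κ 0)⁻¹ := by simp [sg]
    have e3 : (κ 0 ^ sg false)⁻¹ = κ 0 := by simp [sg]
    rw [e2, e3, ← smul_add, smul_smul, ← pow_add]
    have e4 : (-1 : ℤ) ^ (n + 1 + n) = -1 := by
      rw [show n + 1 + n = 2 * n + 1 by ring, pow_succ, pow_mul]
      simp
    rw [e4, neg_smul, one_smul]
    rw [add_assoc] at h3
    exact eq_neg_of_add_eq_zero_left h3

/-- the parity argument -/
theorem sum_eq_zero_of_parity {S A : Type*} [Fintype S] [AddCommGroup A] (T : Perm S)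
    (Ψ : S → A) (hT : ∀ x, Ψ (T x) = - Ψ x) (g : S → ZMod 2) (hg : ∀ x, g (T x) = g x + 1) :
    ∑ x, Ψ x = 0 := by
  classical
  have h1 : ∀ x, Ψ x = (if g x = 0 then Ψ x else 0) + (if g x = 1 then Ψ x else 0) := by
    intro x
    have : ∀ z : ZMod 2, z = 0 ∨ z = 1 := by decide
    rcases this (g x) with h | h <;> rw [h] <;> simp
  rw [Finset.sum_congr rfl fun x _ => h1 x, Finset.sum_add_distrib]
  have h2 : ∑ x, (if g x = 1 then Ψ x else 0) = ∑ x, (if g x = 0 then - Ψ x else 0) := by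
    rw [← Equiv.sum_comp T]
    refine Finset.sum_congr rfl fun x _ => ?_
    rw [hT, hg]
    have : ∀ z : ZMod 2, z + 1 = 1 ↔ z = 0 := by decide
    simp only [this]
  rw [h2, ← Finset.sum_add_distrib]
  refine Finset.sum_eq_zero fun x _ => ?_
  split_ifs <;> simp

end Pool.Agent.Lib.MP_a7259e_gt
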