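import Pool.Agent.Lib.MP_a7259e_gt.Basic

/-!
# Local relations on a pair of adjacent vertices
-/

set_option autoImplicit false

open Equiv

namespace Pool.Agent.Lib.MP_a7259e_gt

variable {m : ℕ} {σ : Perm (Fin m)}

/-- AS in the form: a transposition of two half-edges at one vertex changes the sign. -/
theorem D_swap0 (hσ : IsTri σ) {y : Perm (Fin m)} (hy : IsInv y) (v : Fin m) :
    D σ (cj (swap (σ v) (σ (σ v))) y) = - D σ y := by
  have hJ : IsJac σ y := (isJac_iff _ _).2 ⟨hσ, hy⟩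
  set ζ : Perm (Fin m) := swap (σ v) (σ (σ v)) with hζ
  have hinv : ζ⁻¹ = ζ := swap_inv _ _
  rw [D_cj', hinv]
  have n1 := hσ.ne1 v
  have n2 := hσ.ne2 v
  have n3 := hσ.ne3 v
  refine D_as hJ _ v ?_ ?_
  · rintro h (rfl | rfl | rfl)
    · rw [cj_apply, hinv, hσ.inv_eq, hζ, swap_apply_of_ne_of_ne n1.symm n2.symm,
        swap_apply_left]
    · rw [cj_apply, hinv, hσ.inv_eq, hζ, swap_apply_left, (hσ v).2,
        swap_apply_of_ne_of_ne n1.symm n2.symm]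
    · rw [cj_apply, hinv, hσ.inv_eq, hζ, swap_apply_right, (hσ v).2, swap_apply_right]
  · intro h hh
    push Not at hh
    obtain ⟨h1, h2, h3⟩ := hh
    have h4 : σ h ≠ σ v := fun e => h1 (σ.injective e)
    have h5 : σ h ≠ σ (σ v) := fun e => h2 (σ.injective e)
    rw [cj_apply, hinv, hζ, swap_apply_of_ne_of_ne h2 h3, swap_apply_of_ne_of_ne h4 h5]

theorem Piece.D_swap (hσ : IsTri σ) {a b c a' b' c' : Fin m} (h : Piece σ a b c a' b' c')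
    {y : Perm (Fin m)} (hy : IsInv y) : D σ (cj (Equiv.swap b c) y) = - D σ y := by
  rcases h.hb with ⟨rfl, rfl⟩ | ⟨rfl, rfl⟩
  · exact D_swap0 hσ hy a
  · rw [swap_comm]
    exact D_swap0 hσ hy a

/-- the three-cycle `b → c → x → b` -/
def cyc (b c x : Fin m) : Perm (Fin m) := swap b c * swap c x

theorem cyc_conj (g : Perm (Fin m)) (b c x : Fin m) : cj g (cyc b c x) = cyc (g b) (g c) (g x) := by
  rw [cyc, cyc, cj_mul]
  congr 1 <;> rw [cj, mul_swap_eq_swap_mul, mul_assoc, mul_inv_cancel, mul_one]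

theorem cyc_inv (b c x : Fin m) : (cyc b c x)⁻¹ = swap c x * swap b c := by
  rw [cyc, mul_inv_rev, swap_inv, swap_inv]

theorem cyc_apply_ne {b c x z : Fin m} (h1 : z ≠ b) (h2 : z ≠ c) (h3 : z ≠ x) :
    cyc b c x z = z := by
  rw [cyc, Perm.mul_apply, swap_apply_of_ne_of_ne h2 h3, swap_apply_of_ne_of_ne h1 h2]

theorem cyc_inv_apply_ne {b c x z : Fin m} (h1 : z ≠ b) (h2 : z ≠ c) (h3 : z ≠ x) :
    (cyc b c x)⁻¹ z = z := by
  rw [Perm.inv_eq_iff_eq, cyc_apply_ne h1 h2 h3]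

/-- IHX, standard labels. -/
theorem D_ihx0 (hσ : IsTri σ) {a a' : Fin m}
    (h : Piece σ a (σ a) (σ (σ a)) a' (σ a') (σ (σ a'))) {y : Perm (Fin m)} (hy : IsInv y)
    (hya : y a = a') :
    D σ y + D σ (cj (cyc (σ a) (σ (σ a)) (σ a'))⁻¹ y) + D σ (cj (cyc (σ a) (σ (σ a)) (σ a')) y)
      = 0 := by
  have hJ : IsJac σ y := (isJac_iff _ _).2 ⟨hσ, hy⟩
  have hnd := h.nodup hσ
  simp only [List.nodup_cons, List.mem_cons, List.not_mem_nil, or_false, not_or,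
      List.nodup_nil, and_true, not_false_eq_true] at hnd
  obtain ⟨⟨a1, a2, a3, a4, a5⟩, ⟨b1, b2, b3, b4⟩, ⟨c1, c2, c3⟩, ⟨d1, d2⟩, e1⟩ := hnd
  set κ : Perm (Fin m) := cyc (σ a) (σ (σ a)) (σ a') with hκ
  have k1 : κ (σ a) = σ (σ a) := by
    rw [hκ, cyc, Perm.mul_apply, swap_apply_of_ne_of_ne b1 b3, swap_apply_left]
  have k2 : κ (σ (σ a)) = σ a' := by
    rw [hκ, cyc, Perm.mul_apply, swap_apply_left, swap_apply_of_ne_of_ne (Ne.symm b3) (Ne.symm c2)]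
  have k3 : κ (σ a') = σ a := by
    rw [hκ, cyc, Perm.mul_apply, swap_apply_right, swap_apply_right]
  have k4 : ∀ z, z ≠ σ a → z ≠ σ (σ a) → z ≠ σ a' → κ z = z := fun z h1 h2 h3 =>
    cyc_apply_ne h1 h2 h3
  have j1 : κ⁻¹ (σ a) = σ a' := by rw [Perm.inv_eq_iff_eq, k3]
  have j2 : κ⁻¹ (σ (σ a)) = σ a := by rw [Perm.inv_eq_iff_eq, k1]
  have j3 : κ⁻¹ (σ a') = σ (σ a) := by rw [Perm.inv_eq_iff_eq, k2]
  have j4 : ∀ z, z ≠ σ a → z ≠ σ (σ a) → z ≠ σ a' → κ⁻¹ z = z := fun z h1 h2 h3 =>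
    cyc_inv_apply_ne h1 h2 h3
  have ka : κ a = a := k4 a a1 a2 a4
  have ja : κ⁻¹ a = a := j4 a a1 a2 a4
  have ka' : κ a' = a' := k4 a' (Ne.symm b2) (Ne.symm c1) d1
  have ja' : κ⁻¹ a' = a' := j4 a' (Ne.symm b2) (Ne.symm c1) d1
  have kc' : κ (σ (σ a')) = σ (σ a') := k4 _ (Ne.symm b4) (Ne.symm c3) (Ne.symm e1)
  have jc' : κ⁻¹ (σ (σ a')) = σ (σ a') := j4 _ (Ne.symm b4) (Ne.symm c3) (Ne.symm e1)
  rw [D_cj', D_cj', inv_inv]
  rw [D, D, D, ← Submodule.Quotient.mk_add, ← Submodule.Quotient.mk_add,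
    Submodule.Quotient.mk_eq_zero]
  refine Submodule.subset_span (Or.inr (Or.inr (Or.inr ⟨σ, y, cj κ σ, cj κ⁻¹ σ, a, hJ, ?_, ?_, ?_,
    ?_, ?_, ?_, ?_, ?_, ?_, ?_, ?_, ?_, ?_, ?_, ?_, rfl⟩)))
  · rw [hya]; exact h.ne2
  · rw [hya]; exact h.ne3
  · intro z hz
    rw [hya] at hz
    push Not at hz
    obtain ⟨z1, z2, z3, z4, z5, z6⟩ := hz
    have s1 : σ z ≠ σ a := fun e => z1 (σ.injective e)
    have s2 : σ z ≠ σ (σ a) := fun e => z2 (σ.injective e)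
    have s3 : σ z ≠ σ a' := fun e => z4 (σ.injective e)
    constructor
    · rw [cj_apply, j4 z z2 z3 z5, k4 _ s1 s2 s3]
    · rw [cj_apply, inv_inv, k4 z z2 z3 z5, j4 _ s1 s2 s3]
  · rw [cj_apply, ja, k1]
  · rw [cj_apply, j2, k2, hya]
  · rw [hya, cj_apply, j3, (hσ a).2, ka]
  · rw [hya, cj_apply, ja', k3]
  · rw [hya, cj_apply, j1, kc']
  · rw [hya, cj_apply, jc', (hσ a').2, ka']
  · rw [cj_apply, inv_inv, ka, j1, hya]
  · rw [hya, cj_apply, inv_inv, k3, j2]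
  · rw [cj_apply, inv_inv, k1, (hσ a).2, ja]
  · rw [hya, cj_apply, inv_inv, ka', j3]
  · rw [hya, cj_apply, inv_inv, k2, jc']
  · rw [hya, cj_apply, inv_inv, kc', (hσ a').2, ja']

end Pool.Agent.Lib.MP_a7259e_gt
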