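import Pool.Agent.Lib.MP_a7259e_gt.Disj

/-!
# Diagrams with an odd automorphism vanish
-/

set_option autoImplicit false

open Equiv Function

namespace Pool.Agent.Lib.MP_a7259e_gt

variable {m : ℕ} {σ : Perm (Fin m)}

theorem sg_not (z : Bool) : sg (!z) = - sg z := by
  cases z <;> simp [sg]

theorem prd_inv_const (τ κ₀ : Perm (Fin m)) (n : ℕ) :
    prd (kap τ κ₀⁻¹) (fun _ : Fin n => true) = prd (kap τ κ₀) (fun _ : Fin n => false) := by
  have h : ∀ i, kap τ κ₀⁻¹ i = (kap τ κ₀ i)⁻¹ := fun i => by rw [kap, kap, cj_inv]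
  unfold prd
  simp only [h, sg, cond_true, cond_false, zpow_one, zpow_neg]

/-- odd automorphisms of `2`-power order -/
theorem zero_of_two_pow (hσ : IsTri σ) (N : ℕ)
    (ih : ∀ ι τ : Perm (Fin m), IsInv ι → cj τ ι = ι → Resp σ τ → par σ τ = 1 →
      (Rev σ τ).ncard < N → D σ ι = 0)
    {ι τ : Perm (Fin m)} (hι : IsInv ι) (hc : cj τ ι = ι) (hτ : Resp σ τ) (hp : par σ τ = 1)
    (hN : (Rev σ τ).ncard ≤ N) {e : ℕ} (he : τ ^ 2 ^ e = 1) : D σ ι = 0 := by
  obtain ⟨a, haR, hmin⟩ := Set.exists_min_image (Rev σ τ) (fun x => minimalPeriod τ x)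
    (Set.toFinite _) (rev_nonempty hσ hτ hp)
  obtain ⟨r, hr⟩ : ∃ r, minimalPeriod τ a = r := ⟨_, rfl⟩
  have hrdvd : r ∣ 2 ^ e := by
    rw [← hr]
    apply IsPeriodicPt.minimalPeriod_dvd
    rw [IsPeriodicPt, IsFixedPt, ← Perm.coe_pow, he]
    rfl
  obtain ⟨s, -, hrs⟩ := (Nat.dvd_prime_pow Nat.prime_two).1 hrdvd
  have hr0 : 0 < r := by rw [hrs]; exact Nat.two_pow_pos s
  have hra : (τ ^ r) a = a := by
    have := isPeriodicPt_minimalPeriod (τ : Fin m → Fin m) a
    rw [hr, IsPeriodicPt, IsFixedPt, ← Perm.coe_pow] at this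
    exact this
  have hτr := hτ.pow hσ r
  have hrb : (τ ^ r) (σ a) = σ⁻¹ a := by
    rcases fix_cases hσ hτr hra with h1 | h1
    · exfalso
      obtain ⟨j, hj1, hj2⟩ := haR
      have h2 : r ∣ j := by
        rw [← hr]
        apply IsPeriodicPt.minimalPeriod_dvd
        rw [IsPeriodicPt, IsFixedPt, ← Perm.coe_pow]
        exact hj1
      obtain ⟨q, rfl⟩ := h2
      have h3 := Perm.zpow_apply_eq_self_of_apply_eq_self h1.1 (q : ℤ)
      rw [zpow_natCast, ← pow_mul, hj2] at h3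
      exact hσ.inv_ne a h3
    · exact h1.1
  have hrc : (τ ^ r) (σ⁻¹ a) = σ a := by
    rcases fix_cases hσ hτr hra with h1 | h1
    · rw [h1.1] at hrb; exact absurd hrb.symm (hσ.inv_ne a)
    · exact h1.2
  have hcc : σ⁻¹ a = σ (σ a) := hσ.inv_eq a
  have haU : UF σ (τ ^ r) a := UF.mk' hσ hτr hra hrb
  -- the other end of the edge
  obtain ⟨a', ha'⟩ : ∃ a', ι a = a' := ⟨_, rfl⟩
  have hιa' : ι a' = a := by rw [← ha']; exact (hι a).2
  have hcomm : ∀ (d : ℕ) x, ι ((τ ^ d) x) = (τ ^ d) (ι x) := fun d x => cj_eq_iff (cj_pow_eq hc d) x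
  have hta' : ∀ d, (τ ^ d) a' = ι ((τ ^ d) a) := fun d => by rw [hcomm, ha']
  have hra' : (τ ^ r) a' = a' := by rw [hta', hra, ha']
  have hd1 : ∀ d, 0 < d → d < r → (τ ^ d) a ≠ a := fun d h0 h1 => not_pow_eq_of_lt hr h0 h1
  have hd4' : ∀ d, (τ ^ d) a' = a' → (τ ^ d) a = a := by
    intro d h
    rw [hta', ← ha'] at h
    exact ι.injective h
  have hd4 : ∀ d, 0 < d → d < r → (τ ^ d) a' ≠ a' := fun d h0 h1 h => hd1 d h0 h1 (hd4' d h)
  have hd5 : ∀ d, (τ ^ d) a' = a' → r ∣ d := by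
    intro d h
    rw [← hr]
    apply IsPeriodicPt.minimalPeriod_dvd
    rw [IsPeriodicPt, IsFixedPt, ← Perm.coe_pow]
    exact hd4' d h
  have hne : a' ≠ a := by rw [← ha']; exact (hι a).1
  have hnv : ¬ InV σ a a' := fun h => hne (haU.2 _ h hra')
  have hpiece : ∀ b' c', ((b' = σ a' ∧ c' = σ (σ a')) ∨ (b' = σ (σ a') ∧ c' = σ a')) →
      Piece σ a (σ a) (σ⁻¹ a) a' b' c' := by
    intro b' c' h
    refine ⟨Or.inl ⟨rfl, hcc⟩, h, hne, fun h1 => hnv (Or.inr (Or.inl h1)),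
      fun h1 => hnv (Or.inr (Or.inr ?_))⟩
    rw [hcc]; exact h1
  obtain ⟨n, hn⟩ : ∃ n, r = n + 1 := ⟨r - 1, by omega⟩
  rcases fix_cases hσ hτr hra' with hA | hnA
  · -- case A
    have hP := hpiece (σ a') (σ⁻¹ a') (Or.inl ⟨rfl, hσ.inv_eq a'⟩)
    have hfix : ∀ x, InV σ a' x → (τ ^ r) x = x := by
      rintro x (rfl | rfl | rfl)
      · exact hra'
      · exact hA.1
      · exact hA.2
    have hoff := off_of_fix hσ hτ hP hrs haU hfix hd1 hd4 hd5 (fun y hy => by
      rw [← hr]; exact hmin y hy)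
    rw [hn] at hoff
    refine hP.zero_twisted hσ hι hc hτ hp ha' n hoff ?_
    intro y _ _ z
    have hnd := hP.nodup hσ
    simp only [List.nodup_cons, List.mem_cons, List.not_mem_nil, or_false, not_or,
      List.nodup_nil, and_true, not_false_eq_true] at hnd
    obtain ⟨⟨a1, a2, a3, a4, a5⟩, ⟨b1, b2, b3, b4⟩, ⟨c1, c2, c3⟩, ⟨d1, d2⟩, e1⟩ := hnd
    have hk : kap τ (cyc (σ a) (σ⁻¹ a) (σ a')) (n + 1) = (cyc (σ a) (σ⁻¹ a) (σ a'))⁻¹ := by
      rw [kap, cyc_conj, ← hn, hrb, hrc, hA.1, cyc_swap b3 c2]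
    rw [hk, sg_not, zpow_neg, inv_zpow]
  · have haU' : UF σ (τ ^ r) a' := UF.mk' hσ hτr hra' hnA.1
    by_cases hB : ∃ k, 0 < k ∧ k < r ∧ (τ ^ k) a = a'
    · -- case B
      obtain ⟨k, k0, kr, hk⟩ := hB
      have hk' : (τ ^ k) a' = a := by rw [hta', hk, hιa']
      have h2k : r = k + k := by
        have h1 : (τ ^ (k + k)) a = a := by rw [pow_add, Perm.mul_apply, hk, hk']
        have h2 : r ∣ k + k := by
          rw [← hr]
          apply IsPeriodicPt.minimalPeriod_dvd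
          rw [IsPeriodicPt, IsFixedPt, ← Perm.coe_pow]
          exact h1
        obtain ⟨q, hq⟩ := h2
        rcases Nat.lt_or_ge q 2 with h3 | h3
        · interval_cases q
          · omega
          · omega
        · exfalso
          have : r * 2 ≤ r * q := Nat.mul_le_mul_left r h3
          omega
      have hτk := hτ.pow hσ k
      have hbc : ((τ ^ k) (σ a) = σ a' ∧ (τ ^ k) (σ⁻¹ a) = σ (σ a')) ∨
          ((τ ^ k) (σ a) = σ (σ a') ∧ (τ ^ k) (σ⁻¹ a) = σ a') := by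
        have := hτk.map_sigma hσ a
        rw [hk, ← hcc] at this
        exact this
      have hP := hpiece ((τ ^ k) (σ a)) ((τ ^ k) (σ⁻¹ a)) hbc
      obtain ⟨n', hn'⟩ : ∃ n', k = n' + 1 := ⟨k - 1, by omega⟩
      have hoff : Off τ [a, σ a, σ⁻¹ a, a', (τ ^ k) (σ a), (τ ^ k) (σ⁻¹ a)] (n' + 1) := by
        refine off_of_uf (r := r) hσ hτ hP haU haU' (fun d h0 h1 => hd1 d h0 (by omega)) ?_ ?_
          (fun d h0 h1 => hd4 d h0 (by omega))
        · intro d h0 h1 h
          obtain ⟨t, ht⟩ : ∃ t, k = d + t := ⟨k - d, by omega⟩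
          rw [← hk, ht, pow_add, Perm.mul_apply] at h
          exact hd1 t (by omega) (by omega) ((τ ^ d).injective h).symm
        · intro d h0 h1 h
          rw [← hk, ← Perm.mul_apply, ← pow_add] at h
          exact hd1 (d + k) (by omega) (by omega) h
      refine hP.zero_twisted hσ hι hc hτ hp ha' n' hoff ?_
      intro y hy hya z
      have hkk : kap τ (cyc (σ a) (σ⁻¹ a) ((τ ^ k) (σ a))) (n' + 1) =
          cyc ((τ ^ k) (σ a)) ((τ ^ k) (σ⁻¹ a)) (σ⁻¹ a) := by
        rw [kap, cyc_conj, ← hn']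
        congr 1
        rw [← Perm.mul_apply, ← pow_add, ← h2k, hrb]
      have hw := hP.wrapB hσ hy hya
      rw [hkk]
      cases z
      · simp only [sg, Bool.not_false, cond_true, cond_false, zpow_one, zpow_neg, inv_inv]
        exact hw.2
      · simp only [sg, Bool.not_true, cond_true, cond_false, zpow_one, zpow_neg, inv_inv]
        exact hw.1
    · -- case 1
      push Not at hB
      have hP := hpiece (σ a') (σ⁻¹ a') (Or.inl ⟨rfl, hσ.inv_eq a'⟩)
      have hoff : Off τ [a, σ a, σ⁻¹ a, a', σ a', σ⁻¹ a'] r := by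
        refine off_of_uf (r := r) hσ hτ hP haU haU' hd1 hB ?_ hd4
        intro d h0 h1 h
        apply hB d h0 h1
        rw [hta'] at h
        have h2 : ι (ι ((τ ^ d) a)) = ι a := by rw [h]
        rwa [(hι _).2, ha'] at h2
      rw [hn] at hoff
      have hlt : ∀ τ'' : Perm (Fin m), (∀ x ∈ Rev σ τ'', x ∈ Rev σ τ ∧ x ≠ a) →
          (Rev σ τ'').ncard < N := by
        intro τ'' hsub
        refine lt_of_lt_of_le ?_ hN
        apply Set.ncard_lt_ncard _ (Set.toFinite _)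
        refine ⟨fun x hx => (hsub x hx).1, fun hcon => ?_⟩
        exact (hsub a (hcon haR)).2 rfl
      refine hP.zero_untwisted hσ hι hc hτ hp ha' n s (by rw [← hn, hrs]) hoff ?_ ?_ ?_
      · intro y hy hya z
        have hkk : kap τ (cyc (σ a) (σ⁻¹ a) (σ a')) (n + 1) = cyc (σ⁻¹ a) (σ a) (σ⁻¹ a') := by
          rw [kap, cyc_conj, ← hn, hrb, hrc, hnA.1]
        have hw := hP.wrap1 hσ hy hya
        rw [hkk]
        cases z
        · simp only [sg, cond_false, zpow_one, zpow_neg, inv_inv]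
          exact hw.2
        · simp only [sg, cond_true, zpow_one]
          exact hw.1
      · obtain ⟨τ'', k1, k2, k3, k4⟩ := hP.const_term hσ hι hc hτ hp ha' n s (by rw [← hn, hrs])
          hoff (by rw [← hn]; exact hra) (by rw [← hn]; exact hrb) (by rw [← hn]; exact hrc)
          (by rw [← hn]; exact hra') (by rw [← hn]; exact hnA.1) (by rw [← hn]; exact hnA.2)
        exact ih _ τ'' (hι.cj _) k1 k2 k3 (hlt τ'' k4)
      · have hoff' : Off τ [a, σ⁻¹ a, σ a, a', σ a', σ⁻¹ a'] (n + 1) := by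
          intro d h0 h1 p hp hp'
          have hmem : ∀ x, x ∈ [a, σ⁻¹ a, σ a, a', σ a', σ⁻¹ a'] →
              x ∈ [a, σ a, σ⁻¹ a, a', σ a', σ⁻¹ a'] := by
            intro x hx
            simp only [List.mem_cons, List.not_mem_nil, or_false] at hx ⊢
            rcases hx with h | h | h | h | h | h <;> simp [h]
          exact hoff d h0 h1 p (hmem p hp) (hmem _ hp')
        obtain ⟨τ'', k1, k2, k3, k4⟩ := hP.swap.const_term hσ hι hc hτ hp ha' n s
          (by rw [← hn, hrs])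
          hoff' (by rw [← hn]; exact hra) (by rw [← hn]; exact hrc) (by rw [← hn]; exact hrb)
          (by rw [← hn]; exact hra') (by rw [← hn]; exact hnA.1) (by rw [← hn]; exact hnA.2)
        have hnd := hP.nodup hσ
        simp only [List.nodup_cons, List.mem_cons, List.not_mem_nil, or_false, not_or,
          List.nodup_nil, and_true, not_false_eq_true] at hnd
        obtain ⟨⟨a1, a2, a3, a4, a5⟩, ⟨b1, b2, b3, b4⟩, ⟨c1, c2, c3⟩, ⟨d1, d2⟩, e1⟩ := hnd
        have hz := ih _ τ'' (hι.cj _) k1 k2 k3 (hlt τ'' k4)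
        rw [cyc_swap b3 c2, prd_inv_const] at hz
        exact hz

/-- Main theorem: a diagram with an odd automorphism is zero. -/
theorem main (hσ : IsTri σ) : ∀ (N : ℕ) (ι τ : Perm (Fin m)), IsInv ι → cj τ ι = ι →
    Resp σ τ → par σ τ = 1 → (Rev σ τ).ncard = N → D σ ι = 0 := by
  intro N
  induction N using Nat.strong_induction_on with
  | _ N ih =>
    intro ι τ hι hc hτ hp hN
    obtain ⟨e, q, hq, ho⟩ := Nat.exists_eq_two_pow_mul_odd (n := orderOf τ) (orderOf_pos τ).ne'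
    refine zero_of_two_pow (τ := τ ^ q) (e := e) hσ N (fun ι' τ' k1 k2 k3 k4 k5 =>
      ih _ k5 ι' τ' k1 k2 k3 k4 rfl) hι (cj_pow_eq hc q) (hτ.pow hσ q) ?_ ?_ ?_
    · rw [par_pow hσ hτ, hp, mul_one]
      exact ZMod.natCast_eq_one_iff_odd.2 hq
    · rw [← hN]
      apply Set.ncard_le_ncard _ (Set.toFinite _)
      rintro x ⟨j, h1, h2⟩
      rw [← pow_mul] at h1 h2
      exact ⟨q * j, h1, h2⟩
    · rw [← pow_mul, mul_comm, ← ho, pow_orderOf_eq_one]

end Pool.Agent.Lib.MP_a7259e_gt
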