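import Pool.Agent.Lib.MP_a7259e_gt.Wrap2

/-!
# Permutations of the half-edges respecting the vertices
-/

set_option autoImplicit false

open Equiv Function

namespace Pool.Agent.Lib.MP_a7259e_gt

variable {m : ℕ} {σ : Perm (Fin m)}

/-- `τ` maps vertices to vertices, preserving or reversing the cyclic orders. -/
def Resp (σ τ : Perm (Fin m)) : Prop := ∀ h, τ (σ h) = σ (τ h) ∨ τ (σ h) = σ⁻¹ (τ h)

/-- `1` where `τ` reverses the cyclic order, `0` otherwise -/
def rv (σ τ : Perm (Fin m)) (h : Fin m) : ZMod 2 := if τ (σ h) = σ (τ h) then 0 else 1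

theorem IsTri.inv_ne (hσ : IsTri σ) (x : Fin m) : σ⁻¹ x ≠ σ x := by
  rw [hσ.inv_eq]; exact hσ.ne3 x

theorem IsTri.inv_inv_eq (hσ : IsTri σ) (x : Fin m) : σ⁻¹ (σ⁻¹ x) = σ x := by
  rw [Perm.inv_eq_iff_eq, Perm.inv_eq_iff_eq, (hσ x).2]

theorem rv_zero {τ : Perm (Fin m)} {h : Fin m} : rv σ τ h = 0 ↔ τ (σ h) = σ (τ h) := by
  rw [rv]; split_ifs with h1 <;> simp [h1]

theorem rv_one {τ : Perm (Fin m)} (hσ : IsTri σ) (hτ : Resp σ τ) {h : Fin m} :
    rv σ τ h = 1 ↔ τ (σ h) = σ⁻¹ (τ h) := by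
  rw [rv]
  split_ifs with h1
  · rw [h1]
    constructor
    · intro h2; exact absurd h2 (by decide)
    · intro h2; exact absurd h2.symm (hσ.inv_ne _)
  · simp only [true_iff]
    exact (hτ h).resolve_left h1

theorem rv_cases (τ : Perm (Fin m)) (h : Fin m) : rv σ τ h = 0 ∨ rv σ τ h = 1 := by
  rw [rv]; split_ifs <;> simp

/-- `rv` is constant on the vertices -/
theorem rv_sigma (hσ : IsTri σ) {τ : Perm (Fin m)} (hτ : Resp σ τ) (h : Fin m) :
    rv σ τ (σ h) = rv σ τ h := by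
  rcases rv_cases τ h with h0 | h0
  · rw [h0, rv_zero]
    rw [rv_zero] at h0
    rcases hτ (σ h) with h1 | h1
    · exact h1
    · exfalso
      rw [h0, inv_app] at h1
      exact hσ.ne2 h (τ.injective h1)
  · rw [h0, rv_one hσ hτ]
    rw [rv_one hσ hτ] at h0
    rcases hτ (σ h) with h1 | h1
    · exfalso
      rw [h0, app_inv] at h1
      exact hσ.ne2 h (τ.injective h1)
    · exact h1

theorem rv_sigma_inv (hσ : IsTri σ) {τ : Perm (Fin m)} (hτ : Resp σ τ) (h : Fin m) :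
    rv σ τ (σ⁻¹ h) = rv σ τ h := by
  conv_rhs => rw [← app_inv σ h]
  rw [rv_sigma hσ hτ]

theorem Resp.inv_apply (hσ : IsTri σ) {τ : Perm (Fin m)} (hτ : Resp σ τ) {h : Fin m} :
    (rv σ τ h = 0 → τ (σ⁻¹ h) = σ⁻¹ (τ h)) ∧ (rv σ τ h = 1 → τ (σ⁻¹ h) = σ (τ h)) := by
  constructor
  · intro h0
    rw [← rv_sigma_inv hσ hτ, rv_zero, app_inv] at h0
    rw [h0, inv_app]
  · intro h0
    rw [← rv_sigma_inv hσ hτ, rv_one hσ hτ, app_inv] at h0
    rw [h0, app_inv]

theorem Resp.mul (hσ : IsTri σ) {τ ρ : Perm (Fin m)} (hτ : Resp σ τ) (hρ : Resp σ ρ) :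
    Resp σ (τ * ρ) := by
  intro h
  rw [Perm.mul_apply, Perm.mul_apply]
  rcases hρ h with h1 | h1
  · rw [h1]; exact hτ (ρ h)
  · rw [h1]
    rcases rv_cases (σ := σ) τ (ρ h) with h2 | h2
    · right; exact (hτ.inv_apply hσ).1 h2
    · left; exact (hτ.inv_apply hσ).2 h2

theorem rv_mul (hσ : IsTri σ) {τ ρ : Perm (Fin m)} (hτ : Resp σ τ) (hρ : Resp σ ρ) (h : Fin m) :
    rv σ (τ * ρ) h = rv σ τ (ρ h) + rv σ ρ h := by
  have hτρ := hτ.mul hσ hρ
  rcases rv_cases (σ := σ) ρ h with h1 | h1 <;> rcases rv_cases (σ := σ) τ (ρ h) with h2 | h2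
  · rw [h1, h2, add_zero, rv_zero, Perm.mul_apply, Perm.mul_apply]
    rw [rv_zero] at h1 h2
    rw [h1, h2]
  · rw [h1, h2, add_zero, rv_one hσ hτρ, Perm.mul_apply, Perm.mul_apply]
    rw [rv_zero] at h1
    rw [rv_one hσ hτ] at h2
    rw [h1, h2]
  · rw [h1, h2, zero_add, rv_one hσ hτρ, Perm.mul_apply, Perm.mul_apply]
    rw [rv_one hσ hρ] at h1
    rw [h1, (hτ.inv_apply hσ).1 h2]
  · have h3 : (1 : ZMod 2) + 1 = 0 := by decide
    rw [h1, h2, h3, rv_zero, Perm.mul_apply, Perm.mul_apply]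
    rw [rv_one hσ hρ] at h1
    rw [h1, (hτ.inv_apply hσ).2 h2]

theorem resp_one : Resp σ 1 := fun _ => Or.inl rfl

theorem rv_id (h : Fin m) : rv σ 1 h = 0 := by rw [rv_zero]; rfl

theorem Resp.pow (hσ : IsTri σ) {τ : Perm (Fin m)} (hτ : Resp σ τ) (k : ℕ) : Resp σ (τ ^ k) := by
  induction k with
  | zero => exact resp_one
  | succ k ih => rw [pow_succ']; exact hτ.mul hσ ih

theorem rv_pow (hσ : IsTri σ) {τ : Perm (Fin m)} (hτ : Resp σ τ) (k : ℕ) (h : Fin m) :
    rv σ (τ ^ k) h = ∑ i ∈ Finset.range k, rv σ τ ((τ ^ i) h) := by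
  induction k with
  | zero => simp [rv_id]
  | succ k ih => rw [pow_succ', rv_mul hσ hτ (hτ.pow hσ k), ih, Finset.sum_range_succ, add_comm]

/-- the parity of (three times) the number of reversed vertices -/
def par (σ τ : Perm (Fin m)) : ZMod 2 := ∑ h, rv σ τ h

theorem par_mul (hσ : IsTri σ) {τ ρ : Perm (Fin m)} (hτ : Resp σ τ) (hρ : Resp σ ρ) :
    par σ (τ * ρ) = par σ τ + par σ ρ := by
  rw [par, par, par, Finset.sum_congr rfl fun h _ => rv_mul hσ hτ hρ h, Finset.sum_add_distrib]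
  congr 1
  exact Equiv.sum_comp ρ (rv σ τ)

theorem par_one : par σ (1 : Perm (Fin m)) = 0 := by simp [par, rv_id]

theorem par_pow (hσ : IsTri σ) {τ : Perm (Fin m)} (hτ : Resp σ τ) (k : ℕ) :
    par σ (τ ^ k) = k * par σ τ := by
  induction k with
  | zero => simp [par_one]
  | succ k ih => rw [pow_succ', par_mul hσ hτ (hτ.pow hσ k), ih]; push_cast; ring

theorem Resp.inv (hσ : IsTri σ) {τ : Perm (Fin m)} (hτ : Resp σ τ) : Resp σ τ⁻¹ := by
  intro h
  have h1 : rv σ τ (τ⁻¹ h) = 0 ∨ rv σ τ (τ⁻¹ h) = 1 := rv_cases _ _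
  rcases h1 with h1 | h1
  · left
    rw [rv_zero, app_inv] at h1
    rw [← h1, inv_app]
  · right
    have h2 := (hτ.inv_apply hσ).2 h1
    rw [app_inv] at h2
    rw [← h2, inv_app]

/-- a half-edge fixed by a power of `τ` which exchanges the other two half-edges of its vertex -/
def Rev (σ τ : Perm (Fin m)) : Set (Fin m) :=
  {h | ∃ j : ℕ, (τ ^ j) h = h ∧ (τ ^ j) (σ h) = σ⁻¹ h}

/-- coboundaries: a function on a finite set whose sum over every closed orbit segment vanishes is a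
difference -/
theorem exists_primitive {S : Type*} (T : Perm S) (f : S → ZMod 2)
    (h : ∀ x (j : ℕ), (T ^ j) x = x → ∑ i ∈ Finset.range j, f ((T ^ i) x) = 0)
    (hfin : ∀ x, ∃ n : ℕ, 0 < n ∧ (T ^ n) x = x) :
    ∃ g : S → ZMod 2, ∀ x, g (T x) = g x + f x := by
  classical
  -- equivalence relation
  let s : Setoid S := Perm.SameCycle.setoid T
  let rep : S → S := fun x => (Quotient.mk s x).out
  have hrep : ∀ x, T.SameCycle (rep x) x := fun x => Quotient.mk_out (s := s) x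
  have hnat : ∀ x, ∃ i : ℕ, (T ^ i) (rep x) = x := by
    intro x
    obtain ⟨z, hz⟩ := hrep x
    obtain ⟨n, hn, hn'⟩ := hfin (rep x)
    -- shift z to a natural number
    refine ⟨(z % n).toNat, ?_⟩
    have h1 : (0 : ℤ) ≤ z % n := Int.emod_nonneg _ (by omega)
    have h2 : z = n * (z / n) + z % n := (Int.mul_ediv_add_emod z n).symm
    have h3 : (T ^ ((n : ℤ) * (z / n))) (rep x) = rep x := by
      rw [zpow_mul, zpow_natCast]
      have h4 : ∀ w : ℤ, ((T ^ n) ^ w) (rep x) = rep x := fun w =>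
        Perm.zpow_apply_eq_self_of_apply_eq_self hn' w
      exact h4 _
    rw [h2, add_comm, zpow_add, Perm.mul_apply, h3] at hz
    rw [← zpow_natCast, Int.toNat_of_nonneg h1, hz]
  choose I hI using hnat
  have hsum : ∀ x (i j : ℕ), (T ^ i) x = (T ^ j) x →
      ∑ k ∈ Finset.range i, f ((T ^ k) x) = ∑ k ∈ Finset.range j, f ((T ^ k) x) := by
    have key : ∀ x (i j : ℕ), i ≤ j → (T ^ i) x = (T ^ j) x →
        ∑ k ∈ Finset.range i, f ((T ^ k) x) = ∑ k ∈ Finset.range j, f ((T ^ k) x) := by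
      intro x i j hij hx
      obtain ⟨d, rfl⟩ := Nat.exists_eq_add_of_le hij
      rw [Finset.sum_range_add]
      have h1 : (T ^ d) ((T ^ i) x) = (T ^ i) x := by
        rw [← Perm.mul_apply, ← pow_add, add_comm d i, hx]
      have h2 := h _ _ h1
      have h3 : ∑ k ∈ Finset.range d, f ((T ^ (i + k)) x) = 0 := by
        rw [← h2]
        refine Finset.sum_congr rfl fun k _ => ?_
        rw [← Perm.mul_apply, ← pow_add, add_comm k i]
      rw [h3, add_zero]
    intro x i j hx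
    rcases le_total i j with h1 | h1
    · exact key x i j h1 hx
    · exact (key x j i h1 hx.symm).symm
  have hrepT : ∀ x, rep (T x) = rep x := by
    intro x
    have : Quotient.mk s (T x) = Quotient.mk s x := Quotient.sound (s := s)
      (show T.SameCycle (T x) x from ⟨-1, by simp⟩)
    simp only [rep, this]
  refine ⟨fun x => ∑ k ∈ Finset.range (I x), f ((T ^ k) (rep x)), fun x => ?_⟩
  have h1 : (T ^ (I (T x))) (rep x) = (T ^ (I x + 1)) (rep x) := by
    have := hI (T x)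
    rw [hrepT] at this
    rw [this, pow_succ', Perm.mul_apply, hI x]
  show ∑ k ∈ Finset.range (I (T x)), f ((T ^ k) (rep (T x))) = _
  rw [hrepT, hsum _ _ _ h1, Finset.sum_range_succ, hI x]

theorem rev_nonempty (hσ : IsTri σ) {τ : Perm (Fin m)} (hτ : Resp σ τ) (hpar : par σ τ = 1) :
    (Rev σ τ).Nonempty := by
  by_contra hcon
  rw [Set.not_nonempty_iff_eq_empty] at hcon
  have hfin : ∀ x : Fin m, ∃ n : ℕ, 0 < n ∧ (τ ^ n) x = x := fun x =>
    ⟨orderOf τ, orderOf_pos τ, by rw [pow_orderOf_eq_one]; rfl⟩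
  obtain ⟨g, hg⟩ := exists_primitive τ (rv σ τ) (fun x j hx => by
    rw [← rv_pow hσ hτ]
    rcases rv_cases (σ := σ) (τ ^ j) x with h1 | h1
    · exact h1
    · exfalso
      rw [rv_one hσ (hτ.pow hσ j), hx] at h1
      have : x ∈ Rev σ τ := ⟨j, hx, h1⟩
      rw [hcon] at this
      exact this) hfin
  have h1 : par σ τ = 0 := by
    have h2 : ∑ x, g (τ x) = ∑ x, g x := Equiv.sum_comp τ g
    rw [Finset.sum_congr rfl fun x _ => hg x, Finset.sum_add_distrib] at h2
    exact add_eq_left.1 h2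
  rw [h1] at hpar
  exact absurd hpar (by decide)

end Pool.Agent.Lib.MP_a7259e_gt
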