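import Pool.Agent.Lib.MP_a7259e_gt.Expand

/-!
# The symmetry of the simultaneous expansion
-/

set_option autoImplicit false

open Equiv Function

namespace Pool.Agent.Lib.MP_a7259e_gt

variable {m : ℕ} {σ : Perm (Fin m)}

/-- the conjugates of a permutation by the powers of `τ` -/
def kap (τ κ₀ : Perm (Fin m)) (i : ℕ) : Perm (Fin m) := cj (τ ^ i) κ₀

theorem kap_succ (τ κ₀ : Perm (Fin m)) (i : ℕ) : cj τ (kap τ κ₀ i) = kap τ κ₀ (i + 1) := by
  rw [kap, kap, cj_cj, ← pow_succ']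

theorem kap_zero (τ κ₀ : Perm (Fin m)) : kap τ κ₀ 0 = κ₀ := by
  rw [kap, pow_zero, cj_one]

/-- the first `n` translates of `P` are disjoint -/
def Off (τ : Perm (Fin m)) (P : List (Fin m)) (n : ℕ) : Prop :=
  ∀ d, 0 < d → d < n → ∀ p ∈ P, (τ ^ d) p ∉ P

section

variable {τ κ₀ : Perm (Fin m)} {P : List (Fin m)} {n : ℕ}

theorem Off.inv (h : Off τ P n) {d : ℕ} (h0 : 0 < d) (h1 : d < n) {p : Fin m} (hp : p ∈ P) :
    (τ ^ d)⁻¹ p ∉ P := fun hq => h d h0 h1 _ hq (by rwa [app_inv])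

theorem kap_apply_of (hκ : ∀ x, x ∉ P → κ₀ x = x) {i : ℕ} {x : Fin m} (hx : (τ ^ i)⁻¹ x ∉ P) :
    kap τ κ₀ i x = x := by
  rw [kap, cj_apply, hκ _ hx, app_inv]

theorem kap_fix (h : Off τ P n) (hκ : ∀ x, x ∉ P → κ₀ x = x) {i : ℕ} (h0 : 0 < i) (h1 : i < n)
    {x : Fin m} (hx : x ∈ P) : kap τ κ₀ i x = x := kap_apply_of hκ (h.inv h0 h1 hx)

theorem kap_fix' (h : Off τ P n) (hκ : ∀ x, x ∉ P → κ₀ x = x) {i j : ℕ} (hi : i < n) (hj : j < n)
    (hij : i ≠ j) {x : Fin m} (hx : x ∈ P) : kap τ κ₀ i ((τ ^ j) x) = (τ ^ j) x := by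
  apply kap_apply_of hκ
  rcases lt_or_gt_of_ne hij with h1 | h1
  · obtain ⟨d, rfl⟩ := Nat.exists_eq_add_of_lt h1
    rw [add_assoc, pow_add, Perm.mul_apply, inv_app]
    exact h _ (by omega) (by omega) _ hx
  · obtain ⟨d, rfl⟩ := Nat.exists_eq_add_of_lt h1
    rw [add_assoc, pow_add, mul_inv_rev, Perm.mul_apply, inv_app]
    exact h.inv (by omega) (by omega) hx

theorem kap_commute (h : Off τ P n) (hκ : ∀ x, x ∉ P → κ₀ x = x) {i : ℕ} (h0 : 0 < i) (h1 : i < n) :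
    Commute κ₀ (kap τ κ₀ i) := by
  apply Perm.Disjoint.commute
  intro x
  by_cases hx : x ∈ P
  · exact Or.inr (kap_fix h hκ h0 h1 hx)
  · exact Or.inl (hκ x hx)

theorem tsym (hσ : IsTri σ) {ι : Perm (Fin m)} (hoff : Off τ P (n + 1))
    (hκ : ∀ x, x ∉ P → κ₀ x = x) (hι : IsInv ι) (hc : cj τ ι = ι) (hτ : Resp σ τ)
    (hp : par σ τ = 1) {a a' : Fin m} (ha : a ∈ P) (ha' : a' ∈ P) (hya : ι a = a')
    (w : Bool → Bool)
    (hw : ∀ y : Perm (Fin m), IsInv y → y a = a' → ∀ z,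
      D σ (cj (kap τ κ₀ (n + 1) ^ sg z)⁻¹ y) = D σ (cj (κ₀ ^ sg (w z))⁻¹ y))
    (β : Fin (n + 1) → Bool) :
    D σ (cj (prd (kap τ κ₀) (Fin.cons (w (β (Fin.last n))) (Fin.init β) : Fin (n + 1) → Bool))⁻¹ ι)
      = - D σ (cj (prd (kap τ κ₀) β)⁻¹ ι) := by
  set y := cj (prd (kap τ κ₀) β)⁻¹ ι with hy
  have hyi : IsInv y := hι.cj _
  rw [← D_cj_par hσ hyi hτ hp]
  have h2 : cj τ y = cj (cj τ (prd (kap τ κ₀) β))⁻¹ ι := by
    conv_rhs => rw [← hc]
    rw [hy, cj_cj, cj_cj]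
    congr 1
    simp only [cj, mul_inv_rev, inv_inv, mul_assoc, inv_mul_cancel, mul_one]
  rw [h2, cj_prd]
  have h3 : (fun i => cj τ (kap τ κ₀ i)) = fun i => kap τ κ₀ (i + 1) := funext fun i =>
    kap_succ τ κ₀ i
  rw [h3, prd_snoc (fun i => kap τ κ₀ (i + 1)) β, prd_cons, kap_zero]
  set Q := prd (fun i => kap τ κ₀ (i + 1)) (Fin.init β) with hQ
  have hQa : ∀ x ∈ P, Q x = x ∧ Q⁻¹ x = x := fun x hx =>
    prd_fix _ _ fun i hi => kap_fix hoff hκ (by omega) (by omega) hx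
  have hQc : Commute κ₀ Q := prd_comm _ _ _ fun i hi => kap_commute hoff hκ (by omega) (by omega)
  have h4 : IsInv (cj Q⁻¹ ι) := hι.cj _
  have h5 : cj Q⁻¹ ι a = a' := by
    rw [cj_apply, inv_inv, (hQa a ha).1, hya, (hQa a' ha').2]
  have h6 := hw _ h4 h5 (β (Fin.last n))
  rw [(hQc.zpow_left _).eq, mul_inv_rev, mul_inv_rev, ← cj_cj, ← cj_cj]
  exact h6.symm

/-- the shift -/
def shf (w : Perm Bool) (n : ℕ) : Perm (Fin (n + 1) → Bool) where
  toFun β := (Fin.cons (w (β (Fin.last n))) (Fin.init β) : Fin (n + 1) → Bool)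
  invFun γ := (Fin.snoc (Fin.tail γ) (w⁻¹ (γ 0)) : Fin (n + 1) → Bool)
  left_inv β := by
    simp
  right_inv γ := by
    simp

theorem shf_apply (w : Perm Bool) (n : ℕ) (β : Fin (n + 1) → Bool) :
    shf w n β = (Fin.cons (w (β (Fin.last n))) (Fin.init β) : Fin (n + 1) → Bool) := rfl

/-- twisted case -/
theorem sum_twisted {A : Type*} [AddCommGroup A] (n : ℕ) (F : (Fin (n + 1) → Bool) → A)
    (hF : ∀ β : Fin (n + 1) → Bool,
      F (Fin.cons (!(β (Fin.last n))) (Fin.init β) : Fin (n + 1) → Bool) = - F β) :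
    ∑ β, F β = 0 := by
  refine sum_eq_zero_of_parity (shf Equiv.boolNot n) F hF
    (fun β => ∑ i, (if β i then 1 else 0 : ZMod 2)) ?_
  intro β
  simp only [shf_apply]
  rw [Fin.sum_univ_succ, Fin.sum_univ_castSucc]
  simp only [Fin.cons_zero, Fin.cons_succ, Fin.init, Equiv.boolNot_apply]
  have : ∀ x : Bool, (if (!x) = true then 1 else 0 : ZMod 2) = (if x = true then 1 else 0) + 1 := by
    decide
  rw [this]
  ring

theorem shf_one (n : ℕ) (β : Fin (n + 1) → Bool) (i : Fin (n + 1)) : shf 1 n β (i + 1) = β i := by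
  rw [shf_apply]
  refine Fin.lastCases ?_ (fun j => ?_) i
  · rw [Fin.last_add_one, Fin.cons_zero]; rfl
  · rw [Fin.coeSucc_eq_succ, Fin.cons_succ]; rfl

theorem shf_one_pow (n k : ℕ) (β : Fin (n + 1) → Bool) (i : Fin (n + 1)) :
    (shf 1 n ^ k) β (i + k • (1 : Fin (n + 1))) = β i := by
  induction k with
  | zero => simp
  | succ k ih =>
    rw [pow_succ', Perm.mul_apply, succ_nsmul, ← add_assoc, shf_one, ih]

theorem shf_one_const (n : ℕ) (β : Fin (n + 1) → Bool) (h : shf 1 n β = β) :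
    β = fun _ => β 0 := by
  have h1 : ∀ i : Fin (n + 1), β (i + 1) = β i := fun i => by
    conv_lhs => rw [← h]
    exact shf_one n β i
  funext i
  induction i using Fin.induction with
  | zero => rfl
  | succ i ih => rw [← Fin.coeSucc_eq_succ, h1, ih]

/-- untwisted case -/
theorem sum_untwisted {A : Type*} [AddCommGroup A] (n s : ℕ) (hn : n + 1 = 2 ^ s)
    (F : (Fin (n + 1) → Bool) → A)
    (hF : ∀ β : Fin (n + 1) → Bool,
      F (Fin.cons (β (Fin.last n)) (Fin.init β) : Fin (n + 1) → Bool) = - F β)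
    (h1 : F (fun _ => true) = 0) (h0 : F (fun _ => false) = 0) : ∑ β, F β = 0 := by
  classical
  set T : Perm (Fin (n + 1) → Bool) := shf 1 n with hT
  have hF' : ∀ β, F (T β) = - F β := hF
  have hsub : ∀ x, T x = x ↔ T (T x) = T x := fun x =>
    ⟨fun h => by rw [h, h], fun h => T.injective h⟩
  have hsub' : ∀ x, ¬ (T x = x) ↔ ¬ (T (T x) = T x) := fun x => not_congr (hsub x)
  rw [← Fintype.sum_subtype_add_sum_subtype (fun β => T β = β) F]
  have e1 : ∑ i : {x // T x = x}, F i = 0 := by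
    refine Finset.sum_eq_zero fun x _ => ?_
    rw [shf_one_const n x.1 x.2]
    cases x.1 0
    · exact h0
    · exact h1
  rw [e1, zero_add]
  let T' : Perm {x // ¬ T x = x} := T.subtypePerm (fun x => (hsub' x).symm)
  have hT' : ∀ x (k : ℕ), (((T' ^ k) x : {x // ¬ T x = x}) : Fin (n + 1) → Bool) = (T ^ k) x.1 := by
    intro x k
    induction k with
    | zero => rfl
    | succ k ih => rw [pow_succ', pow_succ', Perm.mul_apply, Perm.mul_apply, ← ih]; rfl
  have hper : ∀ x : Fin (n + 1) → Bool, (T ^ (n + 1)) x = x := by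
    intro x
    funext i
    have h2 := shf_one_pow n (n + 1) x i
    have h3 : (n + 1) • (1 : Fin (n + 1)) = 0 := by
      have := card_nsmul_eq_zero (x := (1 : Fin (n + 1)))
      rwa [Fintype.card_fin] at this
    rw [h3, add_zero] at h2
    exact h2
  obtain ⟨g, hg⟩ := exists_primitive T' (fun _ => 1) (fun x j hx => by
    have hx' : (T ^ j) x.1 = x.1 := by rw [← hT', hx]
    have d1 : minimalPeriod T x.1 ∣ j := by
      apply IsPeriodicPt.minimalPeriod_dvd
      rw [IsPeriodicPt, IsFixedPt, ← Perm.coe_pow]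
      exact hx'
    have d2 : minimalPeriod T x.1 ∣ 2 ^ s := by
      rw [← hn]
      apply IsPeriodicPt.minimalPeriod_dvd
      rw [IsPeriodicPt, IsFixedPt, ← Perm.coe_pow]
      exact hper x.1
    rw [Finset.sum_const, Finset.card_range, nsmul_eq_mul, mul_one]
    rcases Nat.even_or_odd j with hj | hj
    · exact (ZMod.natCast_eq_zero_iff_even).2 hj
    · exfalso
      have hco : Nat.Coprime j (2 ^ s) := Nat.Coprime.pow_right _ hj.coprime_two_right
      have := Nat.eq_one_of_dvd_coprimes hco d1 d2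
      apply x.2
      have h3 := isPeriodicPt_minimalPeriod (T : (Fin (n + 1) → Bool) → _) x.1
      rw [this] at h3
      exact h3) (fun x => ⟨n + 1, by omega, Subtype.ext (by rw [hT', hper])⟩)
  exact sum_eq_zero_of_parity T' (fun x => F x.1) (fun x => hF' x.1) g hg

end

end Pool.Agent.Lib.MP_a7259e_gt
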