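import Pool.Agent.Lib.MP_a7259e_gt.Core

/-!
# The induction step of the untwisted case
-/

set_option autoImplicit false

open Equiv Function

namespace Pool.Agent.Lib.MP_a7259e_gt

variable {m : ℕ} {σ : Perm (Fin m)}

theorem rev_shrink (hσ : IsTri σ) {τ ϑ : Perm (Fin m)} {P : List (Fin m)} {s : ℕ}
    (hτ : Resp σ τ) (hϑ : Resp σ ϑ) (hP : ∀ x, σ x ∈ P ↔ x ∈ P) (hout : ∀ x, x ∉ P → ϑ x = x)
    (hoff : Off τ P (2 ^ s)) (h1 : ∀ p ∈ P, ϑ ((τ ^ 2 ^ s) p) ∈ P)
    (h2 : ∀ p ∈ P, ϑ ((τ ^ 2 ^ s) p) ≠ p)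
    (h3 : ∀ p ∈ P, ϑ ((τ ^ 2 ^ s) (ϑ ((τ ^ 2 ^ s) p))) = p) :
    ∀ h ∈ Rev σ (ϑ * τ), h ∈ Rev σ τ ∧ h ∉ P := by
  have hP' : ∀ x, σ⁻¹ x ∈ P ↔ x ∈ P := fun x => by
    rw [← hP (σ⁻¹ x), app_inv]
  have hϑP : ∀ x ∈ P, ϑ x ∈ P := by
    intro x hx
    by_contra hcon
    have := hout _ hcon
    have h4 := ϑ.injective this
    rw [h4] at hcon
    exact hcon hx
  set G := ϑ * τ with hG
  have hGr : Resp σ G := hϑ.mul hσ hτ
  have hd : ∀ p ∈ P, ∀ d < 2 ^ s, (G ^ d) p = (τ ^ d) p := by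
    intro p hp d
    induction d with
    | zero => intro _; rfl
    | succ d ih =>
      intro hd
      rw [pow_succ', Perm.mul_apply, ih (by omega), hG, Perm.mul_apply, ← Perm.mul_apply τ,
        ← pow_succ', hout _ (hoff (d + 1) (by omega) hd p hp)]
  have hr : ∀ p ∈ P, (G ^ 2 ^ s) p = ϑ ((τ ^ 2 ^ s) p) := by
    intro p hp
    obtain ⟨k, hk⟩ : ∃ k, 2 ^ s = k + 1 := ⟨2 ^ s - 1, by have := Nat.two_pow_pos s; omega⟩
    rw [hk, pow_succ', Perm.mul_apply, hd p hp k (by omega), hG, Perm.mul_apply,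
      ← Perm.mul_apply τ, ← pow_succ']
  have h2r : ∀ p ∈ P, (G ^ 2 ^ (s + 1)) p = p := by
    intro p hp
    rw [pow_succ, mul_two, pow_add, Perm.mul_apply, hr p hp, hr _ (h1 p hp), h3 p hp]
  rintro h ⟨j, hj1, hj2⟩
  by_cases hU : ∃ i : ℕ, (τ ^ i) h ∈ P
  · exfalso
    classical
    obtain ⟨i, hi, hmin⟩ : ∃ i : ℕ, (τ ^ i) h ∈ P ∧ ∀ j < i, (τ ^ j) h ∉ P :=
      ⟨Nat.find hU, Nat.find_spec hU, fun j hj => Nat.find_min hU hj⟩
    have hlt : ∀ d < i, (G ^ d) h = (τ ^ d) h := by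
      intro d
      induction d with
      | zero => intro _; rfl
      | succ d ih =>
        intro hd
        rw [pow_succ', Perm.mul_apply, ih (by omega), hG, Perm.mul_apply, ← Perm.mul_apply τ,
          ← pow_succ', hout _ (hmin (d + 1) hd)]
    have hGi : (G ^ i) h ∈ P := by
      rcases Nat.eq_zero_or_pos i with h0 | h0
      · rw [h0] at hi ⊢
        exact hi
      · obtain ⟨k, rfl⟩ : ∃ k, i = k + 1 := ⟨i - 1, by omega⟩
        rw [pow_succ', Perm.mul_apply, hlt k (by omega), hG, Perm.mul_apply,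
          ← Perm.mul_apply τ, ← pow_succ']
        exact hϑP _ hi
    have hcomm : ∀ (u v : ℕ) (x : Fin m), (G ^ u) ((G ^ v) x) = (G ^ v) ((G ^ u) x) := by
      intro u v x
      rw [← Perm.mul_apply, ← Perm.mul_apply, ← pow_add, ← pow_add, add_comm]
    have hjp : (G ^ j) ((G ^ i) h) = (G ^ i) h := by rw [hcomm, hj1]
    have : Fact (Nat.Prime 2) := ⟨Nat.prime_two⟩
    have hmp : minimalPeriod G ((G ^ i) h) = 2 ^ (s + 1) := by
      apply minimalPeriod_eq_prime_pow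
      · rw [IsPeriodicPt, IsFixedPt, ← Perm.coe_pow, hr _ hGi]
        exact h2 _ hGi
      · rw [IsPeriodicPt, IsFixedPt, ← Perm.coe_pow]
        exact h2r _ hGi
    have hdvd : 2 ^ (s + 1) ∣ j := by
      rw [← hmp]
      apply IsPeriodicPt.minimalPeriod_dvd
      rw [IsPeriodicPt, IsFixedPt, ← Perm.coe_pow]
      exact hjp
    obtain ⟨q, rfl⟩ := hdvd
    have hGs : (G ^ i) (σ h) ∈ P := by
      rcases hGr.pow hσ i h with h5 | h5
      · rw [h5, hP]; exact hGi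
      · rw [h5, hP']; exact hGi
    have h6 : (G ^ (2 ^ (s + 1) * q)) ((G ^ i) (σ h)) = (G ^ i) (σ h) := by
      rw [pow_mul]
      have h7 := h2r _ hGs
      have := Perm.zpow_apply_eq_self_of_apply_eq_self h7 (q : ℤ)
      rwa [zpow_natCast] at this
    rw [hcomm, hj2] at h6
    exact hσ.inv_ne h ((G ^ i).injective h6)
  · push Not at hU
    have key : ∀ x, (∀ i : ℕ, (τ ^ i) x ∉ P) → ∀ d : ℕ, (G ^ d) x = (τ ^ d) x := by
      intro x hx d
      induction d with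
      | zero => rfl
      | succ d ih =>
        rw [pow_succ', Perm.mul_apply, ih, hG, Perm.mul_apply, ← Perm.mul_apply τ,
          ← pow_succ', hout _ (hx (d + 1))]
    have hUs : ∀ i : ℕ, (τ ^ i) (σ h) ∉ P := by
      intro i
      rcases hτ.pow hσ i h with h5 | h5
      · rw [h5, hP]; exact hU i
      · rw [h5, hP']; exact hU i
    refine ⟨⟨j, ?_, ?_⟩, hU 0⟩
    · rw [← key h hU, hj1]
    · rw [← key _ hUs, hj2]

/-- The constant term of the expansion has an automorphism with fewer reversing half-edges. -/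
theorem Piece.const_term (hσ : IsTri σ) {a b c a' b' c' : Fin m} (h : Piece σ a b c a' b' c')
    {ι τ : Perm (Fin m)} (hι : IsInv ι) (hc : cj τ ι = ι) (hτ : Resp σ τ) (hp : par σ τ = 1)
    (hya : ι a = a') (n s : ℕ) (hn : n + 1 = 2 ^ s) (hoff : Off τ [a, b, c, a', b', c'] (n + 1))
    (ra : (τ ^ (n + 1)) a = a) (rb : (τ ^ (n + 1)) b = c) (rc : (τ ^ (n + 1)) c = b)
    (ra' : (τ ^ (n + 1)) a' = a') (rb' : (τ ^ (n + 1)) b' = c') (rc' : (τ ^ (n + 1)) c' = b') :
    ∃ τ'' : Perm (Fin m), cj τ'' (cj (prd (kap τ (cyc b c b')) (fun _ : Fin (n + 1) => true))⁻¹ ι) =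
        cj (prd (kap τ (cyc b c b')) (fun _ : Fin (n + 1) => true))⁻¹ ι ∧
      Resp σ τ'' ∧ par σ τ'' = 1 ∧ ∀ x ∈ Rev σ τ'', x ∈ Rev σ τ ∧ x ≠ a := by
  have hnd := h.nodup hσ
  have hnd' := h.swap'.nodup hσ
  have hR := h.swap'.resp_tht hσ
  refine ⟨tht a b c a' c' b' * τ, ?_, hR.mul hσ hτ, ?_, ?_⟩
  · set κ₀ := cyc b c b' with hκ₀
    have hκ : ∀ x, x ∉ [a, b, c, a', b', c'] → κ₀ x = x := cyc_fix
    set K := prd (kap τ κ₀) (fun _ : Fin (n + 1) => true) with hK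
    set R := prd (fun i => kap τ κ₀ (i + 1)) (fun _ : Fin n => true) with hRdef
    have hQa : ∀ x ∈ [a, b, c, a', b', c'], R x = x ∧ R⁻¹ x = x := fun x hx =>
      prd_fix _ _ fun i hi => kap_fix hoff hκ (by omega) (by omega) hx
    have hQc : Commute κ₀ R := prd_comm _ _ _ fun i hi =>
      kap_commute hoff hκ (by omega) (by omega)
    have e1 : K = κ₀ * R := by
      have h1 : (fun _ : Fin (n + 1) => true) =
          (Fin.cons true (fun _ : Fin n => true) : Fin (n + 1) → Bool) := by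
        funext i
        refine Fin.cases ?_ (fun j => ?_) i
        · rw [Fin.cons_zero]
        · rw [Fin.cons_succ]
      rw [hK, h1, prd_cons, kap_zero, sg, cond_true, zpow_one]
    have e2 : cj τ K = R * kap τ κ₀ (n + 1) := by
      have h3 : (fun i => cj τ (kap τ κ₀ i)) = fun i => kap τ κ₀ (i + 1) := funext fun i =>
        kap_succ τ κ₀ i
      rw [hK, cj_prd, h3, prd_snoc (fun i => kap τ κ₀ (i + 1)) (fun _ => true), sg, cond_true,
        zpow_one]
      rfl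
    have e3 : kap τ κ₀ (n + 1) = cyc c b c' := by
      rw [kap, hκ₀, cyc_conj, rb, rc, rb']
    set y := cj R⁻¹ ι with hy
    have hya2 : y a = a' := by
      rw [hy, cj_apply, inv_inv, (hQa a (by simp)).1, hya, (hQa a' (by simp)).2]
    have hyi : IsInv y := hι.cj _
    have e4 : cj K⁻¹ ι = cj κ₀⁻¹ y := by
      rw [e1, hQc.eq, mul_inv_rev, hy, cj_cj]
    have e5 : cj τ (cj K⁻¹ ι) = cj (kap τ κ₀ (n + 1))⁻¹ y := by
      have h2 : cj τ (cj K⁻¹ ι) = cj (cj τ K)⁻¹ ι := by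
        conv_rhs => rw [← hc]
        rw [cj_cj, cj_cj]
        congr 1
        simp only [cj, mul_inv_rev, inv_inv, mul_assoc, inv_mul_cancel, mul_one]
      rw [h2, e2, mul_inv_rev, hy, cj_cj]
    have e6 : cj τ (cj K⁻¹ ι) = cj (Equiv.swap b c' * Equiv.swap b' c) (cj K⁻¹ ι) := by
      rw [e5, e3, wrap1_eq (nodup4 hnd), e4, ← cj_cj _ (cyc b c b')⁻¹ y]
    have hz : cj K⁻¹ ι a = a' := by
      rw [e4]; exact (h.cj_apply_ne hσ hya2).2
    have h1 : (Equiv.swap b c' * Equiv.swap b' c) * Equiv.swap a a' = tht a b c a' c' b' := by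
      simp only [List.nodup_cons, List.mem_cons, List.not_mem_nil, or_false, not_or,
        List.nodup_nil, and_true, not_false_eq_true] at hnd
      obtain ⟨⟨a1, a2, a3, a4, a5⟩, ⟨b1, b2, b3, b4⟩, ⟨c1, c2, c3⟩, ⟨d1, d2⟩, f1⟩ := hnd
      rw [tht, mul_assoc, swap_comm_of_ne (Ne.symm a4) (Ne.symm d1) (Ne.symm a2) c1,
        ← mul_assoc, swap_comm_of_ne (Ne.symm a1) b2 (Ne.symm a5) (Ne.symm d2),
        Equiv.swap_comm b' c]
    have e7 : cj (tht a b c a' c' b') (cj K⁻¹ ι) = cj τ (cj K⁻¹ ι) := by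
      rw [← h1, ← cj_cj _ (Equiv.swap a a'), cj_swap_self (hι.cj _) hz, e6]
    rw [← cj_cj, ← e7, cj_cj, tht_mul_self hnd', cj_one]
  · rw [par_mul hσ hR hτ, hp, h.swap'.par_tht hσ, zero_add]
  · have hmem : ∀ x, x ∈ [a, b, c, a', c', b'] ↔ x ∈ [a, b, c, a', b', c'] := by
      intro x
      simp only [List.mem_cons, List.not_mem_nil, or_false]
      tauto
    have hev : ∀ p ∈ [a, b, c, a', b', c'],
        tht a b c a' c' b' ((τ ^ (n + 1)) p) = tht a b c a' b' c' p := by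
      intro p hp
      simp only [List.mem_cons, List.not_mem_nil, or_false] at hp
      rcases hp with rfl | rfl | rfl | rfl | rfl | rfl
      · rw [ra, tht_a hnd, tht_a hnd']
      · rw [rb, tht_b hnd, tht_c hnd']
      · rw [rc, tht_c hnd, tht_b hnd']
      · rw [ra', tht_a' hnd, tht_a' hnd']
      · rw [rb', tht_b' hnd, tht_b' hnd']
      · rw [rc', tht_c' hnd, tht_c' hnd']
    have hin : ∀ p ∈ [a, b, c, a', b', c'], tht a b c a' b' c' p ∈ [a, b, c, a', b', c'] := by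
      intro p hp
      simp only [List.mem_cons, List.not_mem_nil, or_false] at hp
      rcases hp with rfl | rfl | rfl | rfl | rfl | rfl
      · rw [tht_a hnd]; simp
      · rw [tht_b hnd]; simp
      · rw [tht_c hnd]; simp
      · rw [tht_a' hnd]; simp
      · rw [tht_b' hnd]; simp
      · rw [tht_c' hnd]; simp
    have key := rev_shrink (P := [a, b, c, a', b', c']) (s := s) hσ hτ hR (h.mem_sigma hσ)
      (fun x hx => tht_ne (by rwa [hmem])) (by rw [← hn]; exact hoff)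
      (fun p hp => by rw [← hn, hev p hp]; exact hin p hp)
      (fun p hp => by rw [← hn, hev p hp]; exact tht_ne_self hnd hp)
      (fun p hp => by rw [← hn, hev p hp, hev _ (hin p hp), tht_tht hnd])
    intro x hx
    obtain ⟨k1, k2⟩ := key x hx
    refine ⟨k1, ?_⟩
    rintro rfl
    exact k2 (by simp)

end Pool.Agent.Lib.MP_a7259e_gt
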