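import Pool.Agent.Lib.MP_a7259e_gt.Resp

/-!
# The sign of a permutation respecting the vertices
-/

set_option autoImplicit false

open Equiv Function

namespace Pool.Agent.Lib.MP_a7259e_gt

variable {m : ℕ} {σ : Perm (Fin m)}

/-- AS for an arbitrary change of the cyclic orders -/
theorem D_reorient (hσ : IsTri σ) {y : Perm (Fin m)} (hy : IsInv y) :
    ∀ (n : ℕ) (σ₁ : Perm (Fin m)), IsTri σ₁ → (∀ h, σ₁ h = σ h ∨ σ₁ h = σ⁻¹ h) →
      (Finset.univ.filter fun h => σ₁ h ≠ σ h).card = n → D σ₁ y = (-1 : ℤ) ^ n • D σ y := by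
  classical
  intro n
  induction n using Nat.strong_induction_on with
  | _ n ih =>
    intro σ₁ h₁ hs hcard
    by_cases hemp : ∀ h, σ₁ h = σ h
    · have e : σ₁ = σ := Equiv.ext hemp
      subst e
      have : n = 0 := by rw [← hcard]; simp
      subst this
      simp
    · push Not at hemp
      obtain ⟨v, hv⟩ := hemp
      have v1 : σ₁ v = σ⁻¹ v := (hs v).resolve_left hv
      have v2 : σ₁ (σ⁻¹ v) = σ v := by
        rcases hs (σ⁻¹ v) with h2 | h2
        · exfalso
          rw [app_inv] at h2
          apply h₁.ne2 v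
          rw [v1, h2]
        · rw [h2, hσ.inv_inv_eq]
      have v3 : σ₁ (σ v) = v := by
        rw [← v2, ← v1]
        exact (h₁ v).2
      have d1 : σ⁻¹ v ≠ v := by rw [hσ.inv_eq]; exact hσ.ne2 v
      have d2 : σ v ≠ v := hσ.ne1 v
      have d3 : σ⁻¹ v ≠ σ v := hσ.inv_ne v
      set ζ : Perm (Fin m) := swap (σ⁻¹ v) (σ v) with hζ
      have hzi : ζ⁻¹ = ζ := swap_inv _ _
      have zv : ζ v = v := swap_apply_of_ne_of_ne d1.symm d2.symm
      have z1 : ζ (σ⁻¹ v) = σ v := swap_apply_left _ _
      have z2 : ζ (σ v) = σ⁻¹ v := swap_apply_right _ _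
      -- the values of the new orientation
      have w0 : cj ζ σ₁ v = σ v := by rw [cj_apply, hzi, zv, v1, z1]
      have w1 : cj ζ σ₁ (σ v) = σ⁻¹ v := by rw [cj_apply, hzi, z2, v2, z2]
      have w2 : cj ζ σ₁ (σ⁻¹ v) = v := by rw [cj_apply, hzi, z1, v3, zv]
      have w3 : ∀ h, h ≠ v → h ≠ σ v → h ≠ σ⁻¹ v → cj ζ σ₁ h = σ₁ h := by
        intro h k0 k1 k2
        have zh : ζ h = h := swap_apply_of_ne_of_ne k2 k1
        have l1 : σ₁ h ≠ σ⁻¹ v := fun e => k0 (σ₁.injective (e.trans v1.symm))
        have l2 : σ₁ h ≠ σ v := fun e => k2 (σ₁.injective (e.trans v2.symm))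
        rw [cj_apply, hzi, zh, hζ, swap_apply_of_ne_of_ne l1 l2]
      have hJ : IsJac σ₁ y := (isJac_iff _ _).2 ⟨h₁, hy⟩
      have hinv0 : σ₁⁻¹ v = σ v := by rw [Perm.inv_eq_iff_eq, v3]
      have hinv1 : σ₁⁻¹ (σ⁻¹ v) = v := by rw [Perm.inv_eq_iff_eq, v1]
      have hinv2 : σ₁⁻¹ (σ v) = σ⁻¹ v := by rw [Perm.inv_eq_iff_eq, v2]
      have key : D (cj ζ σ₁) y = - D σ₁ y := by
        refine D_as hJ _ v ?_ ?_
        · rw [v1, v2]
          rintro h (rfl | rfl | rfl)
          · rw [w0, hinv0]
          · rw [w2, hinv1]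
          · rw [w1, hinv2]
        · rw [v1, v2]
          intro h hh
          push Not at hh
          exact w3 h hh.1 hh.2.2 hh.2.1
      -- the difference sets
      have hset : (Finset.univ.filter fun h => σ₁ h ≠ σ h) =
          insert v (insert (σ v) (insert (σ⁻¹ v)
            (Finset.univ.filter fun h => cj ζ σ₁ h ≠ σ h))) := by
        ext h
        simp only [Finset.mem_filter, Finset.mem_univ, true_and, Finset.mem_insert]
        constructor
        · intro hh
          by_cases k0 : h = v
          · exact Or.inl k0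
          by_cases k1 : h = σ v
          · exact Or.inr (Or.inl k1)
          by_cases k2 : h = σ⁻¹ v
          · exact Or.inr (Or.inr (Or.inl k2))
          right; right; right
          rw [w3 h k0 k1 k2]; exact hh
        · rintro (rfl | rfl | rfl | hh)
          · exact hv
          · rw [v3]; exact (hσ.ne2 v).symm
          · rw [v2, app_inv]; exact d2
          · by_cases k0 : h = v
            · subst k0; exact hv
            by_cases k1 : h = σ v
            · subst k1; rw [v3]; exact (hσ.ne2 v).symm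
            by_cases k2 : h = σ⁻¹ v
            · subst k2; rw [v2, app_inv]; exact d2
            rw [w3 h k0 k1 k2] at hh; exact hh
      have hc : n = (Finset.univ.filter fun h => cj ζ σ₁ h ≠ σ h).card + 3 := by
        rw [← hcard, hset, Finset.card_insert_of_notMem, Finset.card_insert_of_notMem,
          Finset.card_insert_of_notMem]
        · simp only [Finset.mem_filter, Finset.mem_univ, true_and, not_not]
          rw [w2, app_inv]
        · simp only [Finset.mem_insert, Finset.mem_filter, Finset.mem_univ, true_and, not_or,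
            not_not]
          exact ⟨d3.symm, by rw [w1, hσ.inv_eq]⟩
        · simp only [Finset.mem_insert, Finset.mem_filter, Finset.mem_univ, true_and, not_or,
            not_not]
          exact ⟨d2.symm, d1.symm, w0⟩
      have h2 := ih _ (by omega : (Finset.univ.filter fun h => cj ζ σ₁ h ≠ σ h).card < n)
        (cj ζ σ₁) (h₁.cj ζ) (fun h => by
          by_cases k0 : h = v
          · left; rw [k0, w0]
          by_cases k1 : h = σ v
          · left; rw [k1, w1, hσ.inv_eq]
          by_cases k2 : h = σ⁻¹ v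
          · left; rw [k2, w2, app_inv]
          rw [w3 h k0 k1 k2]; exact hs h) rfl
      have h3 : D σ₁ y = - D (cj ζ σ₁) y := by rw [key, neg_neg]
      rw [h3, h2, hc, pow_add]
      simp

theorem D_cj_par (hσ : IsTri σ) {y : Perm (Fin m)} (hy : IsInv y) {τ : Perm (Fin m)}
    (hτ : Resp σ τ) (hp : par σ τ = 1) : D σ (cj τ y) = - D σ y := by
  classical
  rw [D_cj']
  have h1 : ∀ h, cj τ⁻¹ σ h = if rv σ τ h = 0 then σ h else σ⁻¹ h := by
    intro h
    rw [cj_apply, inv_inv]
    rcases rv_cases (σ := σ) τ h with h0 | h0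
    · rw [if_pos h0]
      rw [rv_zero] at h0
      rw [← h0, inv_app]
    · rw [if_neg (by rw [h0]; decide)]
      have := (hτ.inv_apply hσ).2 h0
      rw [← this, inv_app]
  have h2 : ∀ h, cj τ⁻¹ σ h = σ h ∨ cj τ⁻¹ σ h = σ⁻¹ h := by
    intro h
    rw [h1]
    split_ifs
    · exact Or.inl rfl
    · exact Or.inr rfl
  rw [D_reorient hσ hy _ _ (hσ.cj _) h2 rfl]
  have h3 : (Finset.univ.filter fun h => cj τ⁻¹ σ h ≠ σ h) =
      Finset.univ.filter fun h => rv σ τ h = 1 := by
    ext h
    simp only [Finset.mem_filter, Finset.mem_univ, true_and]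
    rcases rv_cases (σ := σ) τ h with h0 | h0
    · rw [h1, if_pos h0, h0]; simp
    · rw [h1, if_neg (by rw [h0]; decide), h0]
      simp only [ne_eq, iff_true]
      exact hσ.inv_ne h
  rw [h3]
  have h4 : ((Finset.univ.filter fun h => rv σ τ h = 1).card : ZMod 2) = 1 := by
    refine Eq.trans ?_ hp
    rw [par, Finset.card_filter]
    push_cast
    refine Finset.sum_congr rfl fun h _ => ?_
    rcases rv_cases (σ := σ) τ h with h0 | h0 <;> rw [h0] <;> simp
  have h5 : Odd (Finset.univ.filter fun h => rv σ τ h = 1).card :=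
    ZMod.natCast_eq_one_iff_odd.1 h4
  rw [h5.neg_one_pow, neg_smul, one_smul]

end Pool.Agent.Lib.MP_a7259e_gt
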