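import Pool.Agent.Lib.MP_a7259e_gt.Local

/-!
# Local relations with arbitrary labels
-/

set_option autoImplicit false

open Equiv

namespace Pool.Agent.Lib.MP_a7259e_gt

variable {m : ℕ} {σ : Perm (Fin m)}

theorem swap_comm_of_ne {p q r s : Fin m} (h1 : p ≠ r) (h2 : p ≠ s) (h3 : q ≠ r) (h4 : q ≠ s) :
    swap p q * swap r s = swap r s * swap p q := by
  rw [mul_swap_eq_swap_mul, swap_apply_of_ne_of_ne h1.symm h3.symm,
    swap_apply_of_ne_of_ne h2.symm h4.symm]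

/-- interchanging the first two labels inverts the three-cycle -/
theorem cyc_swap {b c x : Fin m} (h2 : b ≠ x) (h3 : c ≠ x) :
    cyc c b x = (cyc b c x)⁻¹ := by
  rw [cyc_inv, cyc, mul_swap_eq_swap_mul, swap_apply_right, swap_apply_of_ne_of_ne h3.symm h2.symm,
    swap_comm b c]

/-- IHX with arbitrary labels. -/
theorem Piece.ihx (hσ : IsTri σ) {a b c a' b' c' : Fin m} (h : Piece σ a b c a' b' c')
    {y : Perm (Fin m)} (hy : IsInv y) (hya : y a = a') :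
    D σ y + D σ (cj (cyc b c b')⁻¹ y) + D σ (cj (cyc b c b') y) = 0 := by
  -- first `b' = σ a'`
  have key : ∀ {b c b' c' : Fin m} (_ : Piece σ a b c a' b' c') (_ : b' = σ a')
      {y : Perm (Fin m)} (_ : IsInv y) (_ : y a = a'),
      D σ y + D σ (cj (cyc b c b')⁻¹ y) + D σ (cj (cyc b c b') y) = 0 := by
    intro b c b' c' h hb' y hy hya
    subst hb'
    have h0 : Piece σ a (σ a) (σ (σ a)) a' (σ a') (σ (σ a')) :=
      ⟨Or.inl ⟨rfl, rfl⟩, Or.inl ⟨rfl, rfl⟩, h.ne1, h.ne2, h.ne3⟩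
    have hnd := h0.nodup hσ
    simp only [List.nodup_cons, List.mem_cons, List.not_mem_nil, or_false, not_or,
      List.nodup_nil, and_true, not_false_eq_true] at hnd
    obtain ⟨⟨a1, a2, a3, a4, a5⟩, ⟨b1, b2, b3, b4⟩, ⟨c1, c2, c3⟩, ⟨d1, d2⟩, e1⟩ := hnd
    rcases h.hb with ⟨rfl, rfl⟩ | ⟨rfl, rfl⟩
    · exact D_ihx0 hσ h0 hy hya
    · rw [cyc_swap b3 c2, inv_inv, add_right_comm]
      exact D_ihx0 hσ h0 hy hya
  rcases h.hb' with ⟨h1, -⟩ | ⟨-, h1⟩
  · exact key h h1 hy hya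
  · have hnd := h.nodup hσ
    simp only [List.nodup_cons, List.mem_cons, List.not_mem_nil, or_false, not_or,
      List.nodup_nil, and_true, not_false_eq_true] at hnd
    obtain ⟨⟨a1, a2, a3, a4, a5⟩, ⟨b1, b2, b3, b4⟩, ⟨c1, c2, c3⟩, ⟨d1, d2⟩, e1⟩ := hnd
    set ζ : Perm (Fin m) := Equiv.swap b' c' with hζ
    have hza : ζ a = a := swap_apply_of_ne_of_ne a4 a5
    have hza' : ζ a' = a' := swap_apply_of_ne_of_ne d1 d2
    have hzi : ζ⁻¹ = ζ := swap_inv _ _
    have hy1 : IsInv (cj ζ y) := hy.cj ζ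
    have hya1 : cj ζ y a = a' := by rw [cj_apply, hzi, hza, hya, hza']
    have h2 := key h.swap' h1 hy1 hya1
    have e1' : ζ * cyc b c b' = cyc b c c' * ζ := by
      have := cyc_conj ζ b c b'
      rw [cj, mul_inv_eq_iff_eq_mul] at this
      rw [this, hζ, swap_apply_of_ne_of_ne b3 b4, swap_apply_of_ne_of_ne c2 c3, swap_apply_left]
    have e2' : ζ * (cyc b c b')⁻¹ = (cyc b c c')⁻¹ * ζ := by
      rw [eq_inv_mul_iff_mul_eq, ← mul_assoc, ← e1', mul_assoc, mul_inv_cancel, mul_one]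
    have h3 : ∀ z, IsInv z → D σ (cj ζ z) = - D σ z := fun z hz => by
      have := (h.symm hσ).D_swap hσ hz
      exact this
    rw [cj_cj, cj_cj, ← e1', ← e2', ← cj_cj, ← cj_cj, h3 _ hy, h3 _ (hy.cj _), h3 _ (hy.cj _)] at h2
    have h4 : -(D σ y + D σ (cj (cyc b c b')⁻¹ y) + D σ (cj (cyc b c b') y)) = 0 := by
      rw [← h2]; abel
    exact neg_eq_zero.1 h4

/-- exchanging the two vertices of a piece -/
def tht (a b c a' b' c' : Fin m) : Perm (Fin m) := swap a a' * swap b b' * swap c c'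

section six

variable {a b c a' b' c' : Fin m}

theorem tht_a (h : [a, b, c, a', b', c'].Nodup) : tht a b c a' b' c' a = a' := by
  simp only [List.nodup_cons, List.mem_cons, List.not_mem_nil, or_false, not_or,
      List.nodup_nil, and_true, not_false_eq_true] at h
  obtain ⟨⟨a1, a2, a3, a4, a5⟩, ⟨b1, b2, b3, b4⟩, ⟨c1, c2, c3⟩, ⟨d1, d2⟩, e1⟩ := h
  simp [tht, swap_apply_of_ne_of_ne, *]

theorem tht_b (h : [a, b, c, a', b', c'].Nodup) : tht a b c a' b' c' b = b' := by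
  simp only [List.nodup_cons, List.mem_cons, List.not_mem_nil, or_false, not_or,
      List.nodup_nil, and_true, not_false_eq_true] at h
  obtain ⟨⟨a1, a2, a3, a4, a5⟩, ⟨b1, b2, b3, b4⟩, ⟨c1, c2, c3⟩, ⟨d1, d2⟩, e1⟩ := h
  simp [tht, swap_apply_of_ne_of_ne, Ne.symm, *]

theorem tht_c (h : [a, b, c, a', b', c'].Nodup) : tht a b c a' b' c' c = c' := by
  simp only [List.nodup_cons, List.mem_cons, List.not_mem_nil, or_false, not_or,
      List.nodup_nil, and_true, not_false_eq_true] at h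
  obtain ⟨⟨a1, a2, a3, a4, a5⟩, ⟨b1, b2, b3, b4⟩, ⟨c1, c2, c3⟩, ⟨d1, d2⟩, e1⟩ := h
  simp [tht, swap_apply_of_ne_of_ne, Ne.symm a5, Ne.symm b4, Ne.symm d2, Ne.symm e1, *]

theorem tht_a' (h : [a, b, c, a', b', c'].Nodup) : tht a b c a' b' c' a' = a := by
  simp only [List.nodup_cons, List.mem_cons, List.not_mem_nil, or_false, not_or,
      List.nodup_nil, and_true, not_false_eq_true] at h
  obtain ⟨⟨a1, a2, a3, a4, a5⟩, ⟨b1, b2, b3, b4⟩, ⟨c1, c2, c3⟩, ⟨d1, d2⟩, e1⟩ := h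
  simp [tht, swap_apply_of_ne_of_ne, Ne.symm b2, Ne.symm c1, *]

theorem tht_b' (h : [a, b, c, a', b', c'].Nodup) : tht a b c a' b' c' b' = b := by
  simp only [List.nodup_cons, List.mem_cons, List.not_mem_nil, or_false, not_or,
      List.nodup_nil, and_true, not_false_eq_true] at h
  obtain ⟨⟨a1, a2, a3, a4, a5⟩, ⟨b1, b2, b3, b4⟩, ⟨c1, c2, c3⟩, ⟨d1, d2⟩, e1⟩ := h
  simp [tht, swap_apply_of_ne_of_ne, Ne.symm c2, Ne.symm a1, *]

theorem tht_c' (h : [a, b, c, a', b', c'].Nodup) : tht a b c a' b' c' c' = c := by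
  simp only [List.nodup_cons, List.mem_cons, List.not_mem_nil, or_false, not_or,
      List.nodup_nil, and_true, not_false_eq_true] at h
  obtain ⟨⟨a1, a2, a3, a4, a5⟩, ⟨b1, b2, b3, b4⟩, ⟨c1, c2, c3⟩, ⟨d1, d2⟩, e1⟩ := h
  simp [tht, swap_apply_of_ne_of_ne, Ne.symm a2, Ne.symm b1, *]

theorem tht_ne {z : Fin m} (h : z ∉ [a, b, c, a', b', c']) : tht a b c a' b' c' z = z := by
  simp only [List.mem_cons, List.not_mem_nil, or_false, not_or] at h
  obtain ⟨h1, h2, h3, h4, h5, h6⟩ := h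
  simp [tht, swap_apply_of_ne_of_ne, *]

end six

theorem tht_comm (hσ : IsTri σ) {a a' : Fin m}
    (h : Piece σ a (σ a) (σ (σ a)) a' (σ a') (σ (σ a'))) :
    tht a (σ a) (σ (σ a)) a' (σ a') (σ (σ a')) * σ =
      σ * tht a (σ a) (σ (σ a)) a' (σ a') (σ (σ a')) := by
  have hnd := h.nodup hσ
  ext z
  rw [Perm.mul_apply, Perm.mul_apply]
  by_cases hz : z ∈ [a, σ a, σ (σ a), a', σ a', σ (σ a')]
  · simp only [List.mem_cons, List.not_mem_nil, or_false] at hz
    rcases hz with rfl | rfl | rfl | rfl | rfl | rfl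
    · rw [tht_a hnd, tht_b hnd]
    · rw [tht_b hnd, tht_c hnd]
    · rw [tht_c hnd, (hσ a).2, tht_a hnd, (hσ a').2]
    · rw [tht_a' hnd, tht_b' hnd]
    · rw [tht_b' hnd, tht_c' hnd]
    · rw [tht_c' hnd, (hσ _).2, tht_a' hnd, (hσ a).2]
  · rw [tht_ne hz, tht_ne]
    simp only [List.mem_cons, List.not_mem_nil, or_false, not_or] at hz ⊢
    obtain ⟨h1, h2, h3, h4, h5, h6⟩ := hz
    refine ⟨fun e => h3 ?_, fun e => h1 (σ.injective e), fun e => h2 (σ.injective e),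
      fun e => h6 ?_, fun e => h4 (σ.injective e), fun e => h5 (σ.injective e)⟩
    · rw [← e, (hσ z).2]
    · rw [← e, (hσ z).2]

theorem tht_swap (a b c a' b' c' : Fin m) (h : [a, b, c, a', b', c'].Nodup) :
    tht a b c a' b' c' = tht a b c a' c' b' * (Equiv.swap b c * Equiv.swap b' c') := by
  simp only [List.nodup_cons, List.mem_cons, List.not_mem_nil, or_false, not_or,
      List.nodup_nil, and_true, not_false_eq_true] at h
  obtain ⟨⟨a1, a2, a3, a4, a5⟩, ⟨b1, b2, b3, b4⟩, ⟨c1, c2, c3⟩, ⟨d1, d2⟩, e1⟩ := h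
  have h' : [a, b, c, a', c', b'].Nodup := by
    simp only [List.nodup_cons, List.mem_cons, List.not_mem_nil, or_false, not_or,
      List.nodup_nil, and_true, not_false_eq_true]
    exact ⟨⟨a1, a2, a3, a5, a4⟩, ⟨b1, b2, b4, b3⟩, ⟨c1, c3, c2⟩, ⟨d2, d1⟩, Ne.symm e1⟩
  have h : [a, b, c, a', b', c'].Nodup := by
    simp only [List.nodup_cons, List.mem_cons, List.not_mem_nil, or_false, not_or,
      List.nodup_nil, and_true, not_false_eq_true]
    exact ⟨⟨a1, a2, a3, a4, a5⟩, ⟨b1, b2, b3, b4⟩, ⟨c1, c2, c3⟩, ⟨d1, d2⟩, e1⟩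
  ext z
  rw [Perm.mul_apply, Perm.mul_apply]
  by_cases hz : z ∈ [a, b, c, a', b', c']
  · simp only [List.mem_cons, List.not_mem_nil, or_false] at hz
    rcases hz with rfl | rfl | rfl | rfl | rfl | rfl
    · rw [tht_a h, swap_apply_of_ne_of_ne a4 a5, swap_apply_of_ne_of_ne a1 a2, tht_a h']
    · rw [tht_b h, swap_apply_of_ne_of_ne b3 b4, swap_apply_left, tht_c h']
    · rw [tht_c h, swap_apply_of_ne_of_ne c2 c3, swap_apply_right, tht_b h']
    · rw [tht_a' h, swap_apply_of_ne_of_ne d1 d2, swap_apply_of_ne_of_ne (Ne.symm b2) (Ne.symm c1),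
        tht_a' h']
    · rw [tht_b' h, swap_apply_left, swap_apply_of_ne_of_ne (Ne.symm b4) (Ne.symm c3), tht_b' h']
    · rw [tht_c' h, swap_apply_right, swap_apply_of_ne_of_ne (Ne.symm b3) (Ne.symm c2), tht_c' h']
  · have hz' : z ∉ [a, b, c, a', c', b'] := by
      simp only [List.mem_cons, List.not_mem_nil, or_false, not_or] at hz ⊢
      tauto
    rw [tht_ne hz]
    simp only [List.mem_cons, List.not_mem_nil, or_false, not_or] at hz
    obtain ⟨h1, h2, h3, h4, h5, h6⟩ := hz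
    rw [swap_apply_of_ne_of_ne h5 h6, swap_apply_of_ne_of_ne h2 h3, tht_ne hz']

/-- exchanging the names of the half-edges of two vertices does not change the class -/
theorem Piece.D_tht (hσ : IsTri σ) {a b c a' b' c' : Fin m} (h : Piece σ a b c a' b' c')
    {y : Perm (Fin m)} (hy : IsInv y) : D σ (cj (tht a b c a' b' c') y) = D σ y := by
  have h0 : Piece σ a (σ a) (σ (σ a)) a' (σ a') (σ (σ a')) :=
    ⟨Or.inl ⟨rfl, rfl⟩, Or.inl ⟨rfl, rfl⟩, h.ne1, h.ne2, h.ne3⟩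
  have e0 : ∀ z, D σ (cj (tht a (σ a) (σ (σ a)) a' (σ a') (σ (σ a'))) z) = D σ z := fun z =>
    D_cj_of_commute (tht_comm hσ h0) z
  have e1 : ∀ z, IsInv z → D σ (cj (Equiv.swap b c) z) = - D σ z := fun z hz => h.D_swap hσ hz
  have e2 : ∀ z, IsInv z → D σ (cj (Equiv.swap b' c') z) = - D σ z := fun z hz =>
    (h.symm hσ).D_swap hσ hz
  have s1 : tht a (σ a) (σ (σ a)) a' (σ a') (σ (σ a')) =
      tht a (σ (σ a)) (σ a) a' (σ (σ a')) (σ a') := by
    have hnd := h0.nodup hσ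
    simp only [List.nodup_cons, List.mem_cons, List.not_mem_nil, or_false, not_or,
      List.nodup_nil, and_true, not_false_eq_true] at hnd
    obtain ⟨⟨a1, a2, a3, a4, a5⟩, ⟨b1, b2, b3, b4⟩, ⟨c1, c2, c3⟩, ⟨d1, d2⟩, e1⟩ := hnd
    rw [tht, tht, mul_assoc, mul_assoc, swap_comm_of_ne b1 b4 (Ne.symm c2) e1]
  rcases h.hb with ⟨hb, hc⟩ | ⟨hb, hc⟩ <;> rcases h.hb' with ⟨hb', hc'⟩ | ⟨hb', hc'⟩
  · subst hb hc hb' hc'
    exact e0 y
  · rw [tht_swap _ _ _ _ _ _ (h.nodup hσ), ← cj_cj, ← cj_cj]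
    subst hb hc hb' hc'
    rw [e0, e1 _ (hy.cj _), e2 _ hy, neg_neg]
  · rw [tht_swap _ _ _ _ _ _ (h.nodup hσ), ← cj_cj, ← cj_cj]
    subst hb hc hb' hc'
    rw [← s1, e0, e1 _ (hy.cj _), e2 _ hy, neg_neg]
  · subst hb hc hb' hc'
    rw [← s1]
    exact e0 y

/-- `swap a a'` commutes with `y` if `y a = a'` -/
theorem cj_swap_self {y : Perm (Fin m)} (hy : IsInv y) {a a' : Fin m} (hya : y a = a') :
    cj (Equiv.swap a a') y = y := by
  apply cj_eq_of_commute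
  have hya' : y a' = a := by rw [← hya]; exact (hy a).2
  rw [mul_swap_eq_swap_mul, hya, hya', swap_comm]

theorem cyc_b {b c x : Fin m} (h1 : b ≠ c) (h2 : b ≠ x) : cyc b c x b = c := by
  rw [cyc, Perm.mul_apply, swap_apply_of_ne_of_ne h1 h2, swap_apply_left]

theorem cyc_c {b c x : Fin m} (h2 : b ≠ x) (h3 : c ≠ x) : cyc b c x c = x := by
  rw [cyc, Perm.mul_apply, swap_apply_left, swap_apply_of_ne_of_ne h2.symm h3.symm]

theorem cyc_x (b c x : Fin m) : cyc b c x x = b := by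
  rw [cyc, Perm.mul_apply, swap_apply_right, swap_apply_right]

/-- the three-cycle of the flipped piece -/
theorem wrapB_eq {b c b' c' : Fin m} (h : [b, c, b', c'].Nodup) :
    (cyc b' c' c)⁻¹ = (Equiv.swap b c * Equiv.swap b' c') * cyc b c b' := by
  simp only [List.nodup_cons, List.mem_cons, List.not_mem_nil, or_false, not_or,
      List.nodup_nil, and_true, not_false_eq_true] at h
  obtain ⟨⟨b1, b2, b3⟩, ⟨c1, c2⟩, d1⟩ := h
  rw [inv_eq_iff_mul_eq_one]
  ext z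
  rw [Perm.mul_apply, Perm.mul_apply, Perm.mul_apply, Perm.one_apply]
  by_cases hb : z = b
  · subst hb
    rw [cyc_b b1 b2, swap_apply_of_ne_of_ne c1 c2, swap_apply_right,
      cyc_apply_ne b2 b3 b1]
  by_cases hc : z = c
  · subst hc
    rw [cyc_c b2 c1, swap_apply_left, swap_apply_of_ne_of_ne (Ne.symm b3) (Ne.symm c2),
      cyc_c (Ne.symm c1) (Ne.symm c2)]
  by_cases hb' : z = b'
  · subst hb'
    rw [cyc_x, swap_apply_of_ne_of_ne b2 b3, swap_apply_left, cyc_x]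
  by_cases hc' : z = c'
  · subst hc'
    rw [cyc_apply_ne hb hc hb', swap_apply_right,
      swap_apply_of_ne_of_ne (Ne.symm b2) (Ne.symm c1), cyc_b d1 (Ne.symm c1)]
  rw [cyc_apply_ne hb hc hb', swap_apply_of_ne_of_ne hb' hc', swap_apply_of_ne_of_ne hb hc,
    cyc_apply_ne hb' hc' hc]

/-- the three-cycle of the piece reversed at both ends -/
theorem wrap1_eq {b c b' c' : Fin m} (h : [b, c, b', c'].Nodup) :
    (cyc c b c')⁻¹ = (Equiv.swap b c' * Equiv.swap b' c) * (cyc b c b')⁻¹ := by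
  simp only [List.nodup_cons, List.mem_cons, List.not_mem_nil, or_false, not_or,
      List.nodup_nil, and_true, not_false_eq_true] at h
  obtain ⟨⟨b1, b2, b3⟩, ⟨c1, c2⟩, d1⟩ := h
  rw [eq_mul_inv_iff_mul_eq, inv_mul_eq_iff_eq_mul]
  ext z
  rw [Perm.mul_apply, Perm.mul_apply]
  by_cases hb : z = b
  · subst hb
    rw [cyc_b b1 b2, swap_apply_of_ne_of_ne b2 b1, swap_apply_left, cyc_x]
  by_cases hc : z = c
  · subst hc
    rw [cyc_c b2 c1, swap_apply_right, swap_apply_of_ne_of_ne (Ne.symm b2) d1,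
      cyc_apply_ne (Ne.symm c1) (Ne.symm b2) d1]
  by_cases hb' : z = b'
  · subst hb'
    rw [cyc_x, swap_apply_left, swap_apply_of_ne_of_ne (Ne.symm b1) c2, cyc_b (Ne.symm b1) c2]
  by_cases hc' : z = c'
  · subst hc'
    rw [cyc_apply_ne hb hc hb', swap_apply_of_ne_of_ne hb' hc,
      swap_apply_right, cyc_c c2 b3]
  rw [cyc_apply_ne hb hc hb', swap_apply_of_ne_of_ne hb' hc, swap_apply_of_ne_of_ne hb hc',
    cyc_apply_ne hc hb hc']

end Pool.Agent.Lib.MP_a7259e_gt
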