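import Pool.Agent.Lib.MP_a7259e_gt.Wrap

/-!
# Comparison of three-cycles of a piece
-/

set_option autoImplicit false

open Equiv

namespace Pool.Agent.Lib.MP_a7259e_gt

variable {m : ℕ} {σ : Perm (Fin m)}

theorem nodup4 {a b c a' b' c' : Fin m} (h : [a, b, c, a', b', c'].Nodup) : [b, c, b', c'].Nodup := by
  simp only [List.nodup_cons, List.mem_cons, List.not_mem_nil, or_false, not_or,
      List.nodup_nil, and_true, not_false_eq_true] at h ⊢
  tauto

theorem Piece.cj_apply_ne (hσ : IsTri σ) {a b c a' b' c' : Fin m} (h : Piece σ a b c a' b' c')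
    {y : Perm (Fin m)} (hya : y a = a') :
    cj (cyc b c b') y a = a' ∧ cj (cyc b c b')⁻¹ y a = a' := by
  have hnd := h.nodup hσ
  simp only [List.nodup_cons, List.mem_cons, List.not_mem_nil, or_false, not_or,
      List.nodup_nil, and_true, not_false_eq_true] at hnd
  obtain ⟨⟨a1, a2, a3, a4, a5⟩, ⟨b1, b2, b3, b4⟩, ⟨c1, c2, c3⟩, ⟨d1, d2⟩, e1⟩ := hnd
  constructor
  · rw [cj_apply, cyc_inv_apply_ne a1 a2 a4, hya, cyc_apply_ne (Ne.symm b2) (Ne.symm c1) d1]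
  · rw [cj_apply, inv_inv, cyc_apply_ne a1 a2 a4, hya,
      cyc_inv_apply_ne (Ne.symm b2) (Ne.symm c1) d1]

theorem Piece.V4 (hσ : IsTri σ) {a b c a' b' c' : Fin m} (h : Piece σ a b c a' b' c')
    {y : Perm (Fin m)} (hy : IsInv y) (hya : y a = a') :
    D σ (cj (Equiv.swap b c' * Equiv.swap b' c) y) = D σ y := by
  have hnd := h.nodup hσ
  simp only [List.nodup_cons, List.mem_cons, List.not_mem_nil, or_false, not_or,
      List.nodup_nil, and_true, not_false_eq_true] at hnd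
  obtain ⟨⟨a1, a2, a3, a4, a5⟩, ⟨b1, b2, b3, b4⟩, ⟨c1, c2, c3⟩, ⟨d1, d2⟩, e1⟩ := hnd
  have h1 : (Equiv.swap b c' * Equiv.swap b' c) * Equiv.swap a a' = tht a b c a' c' b' := by
    rw [tht, mul_assoc, swap_comm_of_ne (Ne.symm a4) (Ne.symm d1) (Ne.symm a2) c1,
      ← mul_assoc, swap_comm_of_ne (Ne.symm a1) b2 (Ne.symm a5) (Ne.symm d2),
      Equiv.swap_comm b' c]
  rw [← h.swap'.D_tht hσ hy, ← h1, ← cj_cj _ (Equiv.swap a a'), cj_swap_self hy hya]

/-- case of a flipped edge -/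
theorem Piece.wrapB (hσ : IsTri σ) {a b c a' b' c' : Fin m} (h : Piece σ a b c a' b' c')
    {y : Perm (Fin m)} (hy : IsInv y) (hya : y a = a') :
    D σ (cj (cyc b' c' c)⁻¹ y) = D σ (cj (cyc b c b') y) ∧
      D σ (cj (cyc b' c' c) y) = D σ (cj (cyc b c b')⁻¹ y) := by
  have hya' : y a' = a := by rw [← hya]; exact (hy a).2
  have e1 : D σ (cj (cyc b' c' c)⁻¹ y) = D σ (cj (cyc b c b') y) := by
    rw [wrapB_eq (nodup4 (h.nodup hσ)), ← cj_cj, ← cj_cj, h.D_swap hσ (((hy.cj _)).cj _),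
      (h.symm hσ).D_swap hσ (hy.cj _), neg_neg]
  refine ⟨e1, ?_⟩
  have r1 := h.ihx hσ hy hya
  have r2 := (h.symm hσ).swap'.ihx hσ hy hya'
  rw [e1] at r2
  have r3 := r1.trans r2.symm
  rw [add_right_comm] at r3
  exact (add_left_cancel r3).symm

/-- case of an edge whose ends are both reversed -/
theorem Piece.wrap1 (hσ : IsTri σ) {a b c a' b' c' : Fin m} (h : Piece σ a b c a' b' c')
    {y : Perm (Fin m)} (hy : IsInv y) (hya : y a = a') :
    D σ (cj (cyc c b c')⁻¹ y) = D σ (cj (cyc b c b')⁻¹ y) ∧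
      D σ (cj (cyc c b c') y) = D σ (cj (cyc b c b') y) := by
  have e1 : D σ (cj (cyc c b c')⁻¹ y) = D σ (cj (cyc b c b')⁻¹ y) := by
    rw [wrap1_eq (nodup4 (h.nodup hσ)), ← cj_cj]
    exact h.V4 hσ (hy.cj _) (h.cj_apply_ne hσ hya).2
  refine ⟨e1, ?_⟩
  have r1 := h.ihx hσ hy hya
  have r2 := h.swap.swap'.ihx hσ hy hya
  rw [e1] at r2
  exact (add_left_cancel (r1.trans r2.symm)).symm

end Pool.Agent.Lib.MP_a7259e_gt
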